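import Pool.Agent.H92L.GenC

/-!
# One exceptional set for all periodic conditions
-/

set_option autoImplicit false

namespace Pool.Agent.H92L

open Finset Filter Topology Pool.Agent.N782.GN

/-- the condition of a set of pairs of classes -/
def GS (d : ℕ × Finset (ℕ × ℕ)) (a m : ℤ) : Prop := ((a % (d.1 : ℤ)).toNat, (m % (d.1 : ℤ)).toNat) ∈ d.2

/-- every periodic condition is of this form -/
theorem exists_GS {q : ℕ} {G : ℤ → ℤ → Prop} (h : Per q G) : ∃ S : Finset (ℕ × ℕ), GS (q, S) = G := by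
  classical
  refine ⟨(range q ×ˢ range q).filter (fun t => G t.1 t.2), ?_⟩
  have hq : (0 : ℤ) < (q : ℤ) := by exact_mod_cast h.one
  have h0 : ∀ m : ℤ, (((m % (q : ℤ)).toNat : ℕ) : ℤ) = m % (q : ℤ) := fun m =>
    Int.toNat_of_nonneg (Int.emod_nonneg m hq.ne')
  have hdv : ∀ m : ℤ, (q : ℤ) ∣ m - (((m % (q : ℤ)).toNat : ℕ) : ℤ) := by
    intro m
    rw [h0]
    exact Int.dvd_self_sub_emod
  have hlt : ∀ m : ℤ, (m % (q : ℤ)).toNat < q := by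
    intro m
    have h2 := Int.emod_nonneg m hq.ne'
    have h3 := Int.emod_lt_of_pos m hq
    omega
  funext a m
  apply propext
  unfold GS
  simp only [mem_filter, mem_product, mem_range]
  rw [h.iff (hdv a) (hdv m)]
  exact ⟨fun h => h.2, fun h' => ⟨⟨hlt a, hlt m⟩, h'⟩⟩

open Classical in
/-- the exceptions for the scale `R = 2 ^ (n + 2)` -/
noncomputable def Bd (d : ℕ × Finset (ℕ × ℕ)) (j n : ℕ) : Finset ℤ :=
  (Icc ⌈-((2 : ℝ) ^ (n + 2) / 2)⌉ ⌊(2 : ℝ) ^ (n + 2) / 2⌋).filter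
    (fun a : ℤ => Per d.1 (GS d) ∧ ¬ (a = 0 ∨ Tr d.1 (GS d) (1 / ((j : ℝ) + 1)) (j + 2) ((2 : ℝ) ^ (n + 2)) a))

theorem Bd_ev (d : ℕ × Finset (ℕ × ℕ)) (j : ℕ) :
    ∃ N : ℕ, ∀ n, N ≤ n → ((Bd d j n).card : ℝ) ≤ 2 ^ n / ((n : ℝ) + 1) ^ j := by
  classical
  by_cases hG : Per d.1 (GS d)
  · obtain ⟨R₀, h⟩ := lt_all hG (1 / ((j : ℝ) + 1)) (j + 2) (by positivity)
    obtain ⟨N1, hN1⟩ := exists_nat_ge R₀
    obtain ⟨N2, hN2⟩ := exists_nat_ge (2 / (Real.log 2) ^ (j + 2))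
    refine ⟨max N1 N2, fun n hn => ?_⟩
    have hn1 : N1 ≤ n := (le_max_left _ _).trans hn
    have hn2 : N2 ≤ n := (le_max_right _ _).trans hn
    have hR : R₀ ≤ (2 : ℝ) ^ (n + 2) := by
      have e1 : (n : ℝ) ≤ (2 : ℝ) ^ n := by exact_mod_cast Nat.lt_two_pow_self.le
      have e2 : (2 : ℝ) ^ n ≤ (2 : ℝ) ^ (n + 2) := pow_le_pow_right₀ (by norm_num) (by omega)
      have e3 : (N1 : ℝ) ≤ n := by exact_mod_cast hn1
      linarith
    have h1 := h _ hR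
    have hsub : Bd d j n ⊆ (Icc ⌈-((2 : ℝ) ^ (n + 2) / 2)⌉ ⌊(2 : ℝ) ^ (n + 2) / 2⌋).filter
        (fun a : ℤ => ¬ (a = 0 ∨ Tr d.1 (GS d) (1 / ((j : ℝ) + 1)) (j + 2) ((2 : ℝ) ^ (n + 2)) a)) := by
      intro a ha
      unfold Bd at ha
      rw [mem_filter] at ha ⊢
      exact ⟨ha.1, ha.2.2⟩
    have h2 : ((Bd d j n).card : ℝ) ≤ 1 / 2 * ((2 : ℝ) ^ (n + 2) / (Real.log ((2 : ℝ) ^ (n + 2))) ^ (j + 2)) :=
      le_trans (by exact_mod_cast card_le_card hsub) h1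
    refine h2.trans ?_
    rw [Real.log_pow]
    have hl : 0 < Real.log 2 := Real.log_pos (by norm_num)
    have e1 : ((n + 2 : ℕ) : ℝ) = (n : ℝ) + 2 := by push_cast; ring
    rw [e1, mul_pow, pow_add (2 : ℝ) n 2]
    have hn0 : (0 : ℝ) ≤ n := Nat.cast_nonneg n
    have e2 : ((n : ℝ) + 1) ^ j * 2 ≤ ((n : ℝ) + 2) ^ (j + 2) * (Real.log 2) ^ (j + 2) := by
      have k1 : ((n : ℝ) + 1) ^ j ≤ ((n : ℝ) + 2) ^ j := pow_le_pow_left₀ (by linarith) (by linarith) j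
      have k2 : 2 ≤ ((n : ℝ) + 2) ^ 2 * (Real.log 2) ^ (j + 2) := by
        have k3 : 2 / (Real.log 2) ^ (j + 2) ≤ (n : ℝ) := hN2.trans (by exact_mod_cast hn2)
        rw [div_le_iff₀ (by positivity)] at k3
        have k4 : (n : ℝ) ≤ ((n : ℝ) + 2) ^ 2 := by nlinarith
        have k5 : 0 < (Real.log 2) ^ (j + 2) := by positivity
        nlinarith
      calc ((n : ℝ) + 1) ^ j * 2 ≤ ((n : ℝ) + 2) ^ j * (((n : ℝ) + 2) ^ 2 * (Real.log 2) ^ (j + 2)) :=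
            mul_le_mul k1 k2 (by norm_num) (by positivity)
        _ = _ := by ring
    have e3 : 1 / 2 * ((2 : ℝ) ^ n * 2 ^ 2 / (((n : ℝ) + 2) ^ (j + 2) * Real.log 2 ^ (j + 2))) =
        2 ^ n * 2 / (((n : ℝ) + 2) ^ (j + 2) * Real.log 2 ^ (j + 2)) := by ring
    rw [e3, div_le_div_iff₀ (by positivity) (by positivity)]
    have e4 : (0 : ℝ) < 2 ^ n := by positivity
    nlinarith
  · refine ⟨0, fun n _ => ?_⟩
    have : Bd d j n = ∅ := by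
      unfold Bd
      rw [filter_eq_empty_iff]
      rintro a _ ⟨h, -⟩
      exact hG h
    rw [this]
    simp
    positivity

/-- thresholds -/
theorem exists_T (f : ℕ → ℕ × Finset (ℕ × ℕ)) : ∃ T : ℕ → ℕ, (∀ j, j ≤ T j) ∧
    ∀ j n, T j ≤ n → ∀ i < j, ((Bd (f i) j n).card : ℝ) ≤ 2 ^ n / ((n : ℝ) + 1) ^ j := by
  have h : ∀ j, ∃ N : ℕ, j ≤ N ∧ ∀ n, N ≤ n → ∀ i < j, ((Bd (f i) j n).card : ℝ) ≤ 2 ^ n / ((n : ℝ) + 1) ^ j := by
    intro j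
    choose N hN using fun i => Bd_ev (f i) j
    refine ⟨j + ∑ i ∈ range j, N i, by omega, fun n hn i hi => hN i n ?_⟩
    have := single_le_sum (f := N) (fun i _ => Nat.zero_le _) (mem_range.2 hi)
    omega
  choose T h1 h2 using h
  exact ⟨T, h1, h2⟩

open Classical in
/-- the level -/
noncomputable def Jl (T : ℕ → ℕ) (n : ℕ) : ℕ := Nat.findGreatest (fun j => T j ≤ n) n

theorem Jl_ge {T : ℕ → ℕ} (hT : ∀ j, j ≤ T j) {j n : ℕ} (h : T j ≤ n) : j ≤ Jl T n := by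
  classical
  unfold Jl
  exact Nat.le_findGreatest ((hT j).trans h) h

theorem Jl_le (T : ℕ → ℕ) (n : ℕ) : Jl T n ≤ n := by
  classical
  unfold Jl
  exact Nat.findGreatest_le n

theorem Jl_spec {T : ℕ → ℕ} {n : ℕ} (h : T 0 ≤ n) : T (Jl T n) ≤ n := by
  classical
  unfold Jl
  exact Nat.findGreatest_spec (P := fun j => T j ≤ n) (Nat.zero_le n) h

open Classical in
/-- a block of the exceptional set -/
noncomputable def Bk (f : ℕ → ℕ × Finset (ℕ × ℕ)) (T : ℕ → ℕ) (n : ℕ) : Finset ℤ :=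
  (range (Jl T n)).biUnion (fun i => Bd (f i) (Jl T n) n)

theorem Bk_card {f : ℕ → ℕ × Finset (ℕ × ℕ)} {T : ℕ → ℕ}
    (h2 : ∀ j n, T j ≤ n → ∀ i < j, ((Bd (f i) j n).card : ℝ) ≤ 2 ^ n / ((n : ℝ) + 1) ^ j) {n A : ℕ} (h0 : T 0 ≤ n)
    (hA : A + 1 ≤ Jl T n) : ((Bk f T n).card : ℝ) ≤ 2 ^ n / ((n : ℝ) + 1) ^ A := by
  classical
  set j := Jl T n with hj
  have h3 : T j ≤ n := Jl_spec h0
  have h4 : ((Bk f T n).card : ℝ) ≤ ∑ i ∈ range j, ((Bd (f i) j n).card : ℝ) := by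
    unfold Bk
    rw [← hj]
    exact_mod_cast card_biUnion_le
  have h5 : ∑ i ∈ range j, ((Bd (f i) j n).card : ℝ) ≤ ∑ _i ∈ range j, 2 ^ n / ((n : ℝ) + 1) ^ j :=
    sum_le_sum fun i hi => h2 j n h3 i (mem_range.1 hi)
  rw [sum_const, card_range, nsmul_eq_mul] at h5
  refine h4.trans (h5.trans ?_)
  have hn0 : (0 : ℝ) ≤ n := Nat.cast_nonneg n
  have h6 : (j : ℝ) ≤ (n : ℝ) + 1 := by
    have : (j : ℝ) ≤ n := by exact_mod_cast Jl_le T n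
    linarith
  have h7 : ((n : ℝ) + 1) ^ (A + 1) ≤ ((n : ℝ) + 1) ^ j := pow_le_pow_right₀ (by linarith) hA
  rw [mul_div_assoc', div_le_div_iff₀ (by positivity) (by positivity)]
  have e4 : (0 : ℝ) < 2 ^ n := by positivity
  calc (j : ℝ) * 2 ^ n * ((n : ℝ) + 1) ^ A ≤ ((n : ℝ) + 1) * 2 ^ n * ((n : ℝ) + 1) ^ A := by gcongr
    _ = 2 ^ n * ((n : ℝ) + 1) ^ (A + 1) := by ring
    _ ≤ 2 ^ n * ((n : ℝ) + 1) ^ j := mul_le_mul_of_nonneg_left h7 e4.le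

/-- the exceptional set -/
def EE (f : ℕ → ℕ × Finset (ℕ × ℕ)) (T : ℕ → ℕ) : Set ℤ :=
  {a | ∃ n : ℕ, T 0 ≤ n ∧ 2 ^ n ≤ a.natAbs ∧ a.natAbs < 2 ^ (n + 1) ∧ a ∈ Bk f T n}

open Classical in
theorem EE_card {f : ℕ → ℕ × Finset (ℕ × ℕ)} {T : ℕ → ℕ} (hT : ∀ j, j ≤ T j)
    (h2 : ∀ j n, T j ≤ n → ∀ i < j, ((Bd (f i) j n).card : ℝ) ≤ 2 ^ n / ((n : ℝ) + 1) ^ j) (A : ℕ) :
    ∃ R₀ : ℝ, ∀ R : ℝ, R₀ ≤ R → (((Icc ⌈-R⌉ ⌊R⌋).filter (fun a => a ∈ EE f T)).card : ℝ) ≤ R / (Real.log R) ^ A := by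
  classical
  obtain ⟨n₀, hn₀⟩ : ∃ n₀ : ℕ, ∀ n, n₀ ≤ n → 12 * 2 ^ A * (n : ℝ) ^ A ≤ 2 ^ n := by
    have h1 := tendsto_pow_const_div_const_pow_of_one_lt A (show (1 : ℝ) < 2 by norm_num)
    have h3 := (tendsto_order.1 h1).2 (1 / (12 * 2 ^ A)) (by positivity)
    obtain ⟨n₀, h4⟩ := eventually_atTop.1 h3
    refine ⟨n₀, fun n hn => ?_⟩
    have h5 := h4 n hn
    rw [div_lt_div_iff₀ (by positivity) (by positivity)] at h5
    linarith
  set K : ℕ := 2 * (T (A + 3) + T 0 + n₀ + 2 ^ (A + 4)) + 2 with hK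
  refine ⟨2 ^ K, fun R hR => ?_⟩
  have hR1 : (1 : ℝ) ≤ R := (one_le_pow₀ (by norm_num)).trans hR
  have hR0 : 0 < R := by linarith
  set N : ℕ := Nat.log 2 ⌊R⌋₊ with hN
  have hfl : ⌊R⌋₊ ≠ 0 := by
    have := Nat.floor_pos.2 hR1
    omega
  have hN1 : (2 : ℝ) ^ N ≤ R := by
    have h3 := Nat.pow_log_le_self 2 hfl
    have h4 : ((2 ^ N : ℕ) : ℝ) ≤ R := (Nat.le_floor_iff hR0.le).1 h3
    exact_mod_cast h4
  have hN2 : R < (2 : ℝ) ^ (N + 1) := by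
    have h3 := Nat.lt_pow_succ_log_self (b := 2) (by norm_num) ⌊R⌋₊
    have h4 : R < ((2 ^ (N + 1) : ℕ) : ℝ) := (Nat.floor_lt hR0.le).1 h3
    exact_mod_cast h4
  have hKN : K ≤ N := by
    by_contra hc
    have h3 : N + 1 ≤ K := by omega
    have h4 : (2 : ℝ) ^ (N + 1) ≤ 2 ^ K := pow_le_pow_right₀ (by norm_num) h3
    linarith
  set M : ℕ := N / 2 with hM
  have hMK : T (A + 3) + T 0 + n₀ + 2 ^ (A + 4) + 1 ≤ M := by omega
  obtain ⟨w, hw⟩ : ∃ w : ℕ, w = 2 ^ (A + 4) := ⟨_, rfl⟩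
  rw [← hw] at hMK
  have hM1 : T (A + 3) ≤ M := by omega
  have hM2 : T 0 ≤ M := by omega
  have hM3 : n₀ ≤ M := by omega
  have hsub : (Icc ⌈-R⌉ ⌊R⌋).filter (fun a => a ∈ EE f T) ⊆
      Icc (-(2 ^ M : ℤ)) (2 ^ M) ∪ (Icc M N).biUnion (fun n => Bk f T n) := by
    intro a ha
    rw [mem_filter, mem_Icc, Int.ceil_le, Int.le_floor] at ha
    obtain ⟨⟨h3, h4⟩, n, h5, h6, h7, h8⟩ := ha
    rw [mem_union]
    by_cases hn : n < M
    · left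
      rw [mem_Icc]
      have h9 : a.natAbs < 2 ^ M := lt_of_lt_of_le h7 (Nat.pow_le_pow_right (by norm_num) hn)
      have h10 : |a| < 2 ^ M := by
        have : ((a.natAbs : ℕ) : ℤ) < ((2 ^ M : ℕ) : ℤ) := by exact_mod_cast h9
        rw [Int.natCast_natAbs] at this
        exact_mod_cast this
      rw [abs_lt] at h10
      exact ⟨h10.1.le, h10.2.le⟩
    · right
      rw [mem_biUnion]
      refine ⟨n, ?_, h8⟩
      rw [mem_Icc]
      refine ⟨by omega, ?_⟩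
      by_contra hc
      have h9 : N + 1 ≤ n := by omega
      have h10 : (2 : ℝ) ^ (N + 1) ≤ 2 ^ n := pow_le_pow_right₀ (by norm_num) h9
      have h11 : ((2 ^ n : ℕ) : ℝ) ≤ (a.natAbs : ℝ) := by exact_mod_cast h6
      rw [Nat.cast_natAbs, Int.cast_abs] at h11
      have h12 : |(a : ℝ)| ≤ R := abs_le.2 ⟨h3, h4⟩
      push_cast at h11
      linarith
  have hc1 : (((Icc ⌈-R⌉ ⌊R⌋).filter (fun a => a ∈ EE f T)).card : ℝ) ≤
      (2 * 2 ^ M + 1) + ∑ n ∈ Icc M N, ((Bk f T n).card : ℝ) := by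
    have h3 := (card_le_card hsub).trans (card_union_le _ _)
    have h4 : ((Icc (-(2 ^ M : ℤ)) (2 ^ M)).card : ℝ) = 2 * 2 ^ M + 1 := by
      rw [Int.card_Icc]
      have h5 : ((2 : ℤ) ^ M + 1 - -2 ^ M).toNat = 2 * 2 ^ M + 1 := by
        have h6 : ((2 ^ M : ℕ) : ℤ) = (2 : ℤ) ^ M := by push_cast; rfl
        rw [← h6]
        omega
      rw [h5]
      push_cast
      ring
    have h5 : (((Icc M N).biUnion (fun n => Bk f T n)).card : ℝ) ≤ ∑ n ∈ Icc M N, ((Bk f T n).card : ℝ) := by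
      exact_mod_cast card_biUnion_le
    have h6 : (((Icc ⌈-R⌉ ⌊R⌋).filter (fun a => a ∈ EE f T)).card : ℝ) ≤ ((Icc (-(2 ^ M : ℤ)) (2 ^ M)).card : ℝ) +
        (((Icc M N).biUnion (fun n => Bk f T n)).card : ℝ) := by exact_mod_cast h3
    linarith
  have hc2 : ∑ n ∈ Icc M N, ((Bk f T n).card : ℝ) ≤ 2 ^ (N + 1) / ((M : ℝ) + 1) ^ (A + 2) := by
    have h3 : ∀ n ∈ Icc M N, ((Bk f T n).card : ℝ) ≤ 2 ^ n / ((M : ℝ) + 1) ^ (A + 2) := by
      intro n hn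
      rw [mem_Icc] at hn
      have h4 := Bk_card h2 (n := n) (A := A + 2) (by omega) (Jl_ge hT (j := A + 3) (by omega))
      refine h4.trans ?_
      apply div_le_div_of_nonneg_left (by positivity) (by positivity)
      apply pow_le_pow_left₀ (by positivity)
      have : (M : ℝ) ≤ n := by exact_mod_cast hn.1
      linarith
    refine (sum_le_sum h3).trans ?_
    rw [← sum_div]
    apply div_le_div_of_nonneg_right _ (by positivity)
    have h4 : ∑ n ∈ Icc M N, (2 : ℝ) ^ n ≤ ∑ n ∈ range (N + 1), (2 : ℝ) ^ n := by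
      apply sum_le_sum_of_subset_of_nonneg
      · intro n hn
        rw [mem_Icc] at hn
        rw [mem_range]
        omega
      · intro n _ _
        positivity
    refine h4.trans ?_
    rw [geom_sum_eq (by norm_num)]
    have : (0 : ℝ) < 2 ^ (N + 1) := by positivity
    linarith
  have hMN : ((N : ℝ) + 1) / 2 ≤ (M : ℝ) + 1 := by
    have : N ≤ 2 * M + 1 := by omega
    have h3 : (N : ℝ) ≤ 2 * M + 1 := by exact_mod_cast this
    linarith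
  have hN0 : (0 : ℝ) ≤ N := Nat.cast_nonneg N
  have hM0 : (0 : ℝ) ≤ M := Nat.cast_nonneg M
  have hc3 : (2 : ℝ) ^ (N + 1) / ((M : ℝ) + 1) ^ (A + 2) ≤ 1 / 2 * (2 ^ N / ((N : ℝ) + 1) ^ A) := by
    have h3 : (((N : ℝ) + 1) / 2) ^ (A + 2) ≤ ((M : ℝ) + 1) ^ (A + 2) := pow_le_pow_left₀ (by positivity) hMN _
    have h4 : (2 : ℝ) ^ (A + 4) ≤ ((N : ℝ) + 1) ^ 2 := by
      have h5 : 2 ^ (A + 4) ≤ N := by
        rw [← hw]
        omega
      have h6 : (2 : ℝ) ^ (A + 4) ≤ N := by exact_mod_cast h5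
      nlinarith
    rw [mul_div_assoc', div_le_div_iff₀ (by positivity) (by positivity)]
    rw [div_pow, div_le_iff₀ (by positivity)] at h3
    have e0 : (0 : ℝ) < 2 ^ N := by positivity
    have h5 : 4 * ((N : ℝ) + 1) ^ A ≤ ((M : ℝ) + 1) ^ (A + 2) := by
      have h6 : ((N : ℝ) + 1) ^ A * 2 ^ (A + 4) ≤ ((M : ℝ) + 1) ^ (A + 2) * 2 ^ (A + 2) := by
        calc ((N : ℝ) + 1) ^ A * 2 ^ (A + 4) ≤ ((N : ℝ) + 1) ^ A * ((N : ℝ) + 1) ^ 2 :=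
              mul_le_mul_of_nonneg_left h4 (by positivity)
          _ = ((N : ℝ) + 1) ^ (A + 2) := by ring
          _ ≤ _ := h3
      have h7 : (2 : ℝ) ^ (A + 4) = 4 * 2 ^ (A + 2) := by ring
      rw [h7] at h6
      have h8 : (0 : ℝ) < 2 ^ (A + 2) := by positivity
      have h9 : (4 * ((N : ℝ) + 1) ^ A) * 2 ^ (A + 2) ≤ ((M : ℝ) + 1) ^ (A + 2) * 2 ^ (A + 2) := by linarith
      exact le_of_mul_le_mul_right h9 h8
    have e1 : (2 : ℝ) ^ (N + 1) * ((N : ℝ) + 1) ^ A = 1 / 2 * 2 ^ N * (4 * ((N : ℝ) + 1) ^ A) := by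
      rw [pow_succ]
      ring
    rw [e1]
    exact mul_le_mul_of_nonneg_left h5 (by positivity)
  have hc4 : 2 * (2 : ℝ) ^ M + 1 ≤ 1 / 2 * (2 ^ N / ((N : ℝ) + 1) ^ A) := by
    have h3 := hn₀ (M + 1) (by omega)
    have h4 : ((N : ℝ) + 1) ^ A ≤ 2 ^ A * ((M + 1 : ℕ) : ℝ) ^ A := by
      rw [← mul_pow]
      apply pow_le_pow_left₀ (by positivity)
      push_cast
      linarith
    have h5 : 6 * ((N : ℝ) + 1) ^ A ≤ 2 ^ M := by
      rw [pow_succ] at h3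
      nlinarith
    have h6 : (1 : ℝ) ≤ 2 ^ M := one_le_pow₀ (by norm_num)
    have h7 : (2 : ℝ) ^ M * 2 ^ M ≤ 2 ^ N := by
      rw [← pow_add]
      exact pow_le_pow_right₀ (by norm_num) (by omega)
    rw [mul_div_assoc', le_div_iff₀ (by positivity)]
    have e0 : (0 : ℝ) < 2 ^ M := by positivity
    calc (2 * (2 : ℝ) ^ M + 1) * ((N : ℝ) + 1) ^ A ≤ (3 * 2 ^ M) * ((N : ℝ) + 1) ^ A := by
          apply mul_le_mul_of_nonneg_right _ (by positivity)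
          linarith
      _ = 1 / 2 * (2 ^ M * (6 * ((N : ℝ) + 1) ^ A)) := by ring
      _ ≤ 1 / 2 * (2 ^ M * 2 ^ M) := by gcongr
      _ ≤ 1 / 2 * 2 ^ N := by gcongr
  have hlogR0 : 0 < Real.log R := by
    apply Real.log_pos
    have : (2 : ℝ) ^ 1 ≤ 2 ^ K := pow_le_pow_right₀ (by norm_num) (by omega)
    linarith
  have hlogR : Real.log R ≤ (N : ℝ) + 1 := by
    have h3 := Real.log_le_log hR0 hN2.le
    rw [Real.log_pow] at h3
    have h4 := Real.log_two_lt_d9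
    push_cast at h3
    nlinarith
  have hc5 : 2 ^ N / ((N : ℝ) + 1) ^ A ≤ R / (Real.log R) ^ A := by
    apply div_le_div₀ hR0.le hN1 (by positivity)
    exact pow_le_pow_left₀ hlogR0.le hlogR A
  linarith

theorem log_ge_one {x : ℝ} (hx : 3 ≤ x) : 1 ≤ Real.log x := by
  rw [Real.le_log_iff_exp_le (by linarith)]
  have := Real.exp_one_lt_d9
  linarith

open Classical in
/-- **one exceptional set for all periodic conditions** -/
theorem univ : ∃ E : Set ℤ,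
    (∀ A : ℕ, ∃ R₀ : ℝ, ∀ R : ℝ, R₀ ≤ R → (((Icc ⌈-R⌉ ⌊R⌋).filter (fun a => a ∈ E)).card : ℝ) ≤ R / (Real.log R) ^ A) ∧
    ∀ (q : ℕ) (G : ℤ → ℤ → Prop), Per q G → ∀ (ε : ℝ) (A : ℕ), 0 < ε → ∃ a₀ : ℝ, ∀ a : ℤ, a ∉ E → a₀ ≤ |(a : ℝ)| →
      ∀ x : ℝ, |(a : ℝ)| ^ (2 + ε) ≤ x → x ≤ |(a : ℝ)| ^ (3 - ε) →
        |(piG G a x : ℝ) - cst q G a * ∫ t in (2 : ℝ)..(Real.sqrt x), 1 / (2 * Real.log t)| ≤
          Real.sqrt x / (Real.log x) ^ A := by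
  obtain ⟨f, hf⟩ := exists_surjective_nat (ℕ × Finset (ℕ × ℕ))
  obtain ⟨T, hT, h2⟩ := exists_T f
  refine ⟨EE f T, EE_card hT h2, fun q G hG ε A hε => ?_⟩
  obtain ⟨S, hS⟩ := exists_GS hG
  obtain ⟨i, hi⟩ := hf (q, S)
  -- the level
  obtain ⟨e1, he1⟩ := exists_nat_ge (2 / ε)
  set j0 : ℕ := i + A + e1 + 1 with hj0
  obtain ⟨a₁, ha₁⟩ := eventually_atTop.1 (ev_rpow_ge (ε / 2) (4 ^ (2 + ε)) (by positivity))
  refine ⟨max (max ((2 : ℝ) ^ (T j0 + T 0 + 1)) 16) a₁, fun a ha h3 x hx1 hx2 => ?_⟩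
  have h3a : (2 : ℝ) ^ (T j0 + T 0 + 1) ≤ |(a : ℝ)| := ((le_max_left _ _).trans (le_max_left _ _)).trans h3
  have h3b : 16 ≤ |(a : ℝ)| := ((le_max_right _ _).trans (le_max_left _ _)).trans h3
  have h3c : a₁ ≤ |(a : ℝ)| := (le_max_right _ _).trans h3
  have hab : ((a.natAbs : ℕ) : ℝ) = |(a : ℝ)| := by rw [Nat.cast_natAbs, Int.cast_abs]
  have ha0 : a.natAbs ≠ 0 := by
    intro h0
    rw [h0] at hab
    rw [← hab] at h3b
    norm_num at h3b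
  set n : ℕ := Nat.log 2 a.natAbs with hn
  have hn1 : 2 ^ n ≤ a.natAbs := Nat.pow_log_le_self 2 ha0
  have hn2 : a.natAbs < 2 ^ (n + 1) := Nat.lt_pow_succ_log_self (by norm_num) _
  have hn1' : (2 : ℝ) ^ n ≤ |(a : ℝ)| := by
    rw [← hab]
    exact_mod_cast hn1
  have hn2' : |(a : ℝ)| < (2 : ℝ) ^ (n + 1) := by
    rw [← hab]
    exact_mod_cast hn2
  have hTn : T j0 + T 0 ≤ n := by
    by_contra hc
    have h4 : n + 1 ≤ T j0 + T 0 + 1 := by omega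
    have h5 : (2 : ℝ) ^ (n + 1) ≤ 2 ^ (T j0 + T 0 + 1) := pow_le_pow_right₀ (by norm_num) h4
    linarith
  set j : ℕ := Jl T n with hj
  have hjj : j0 ≤ j := Jl_ge hT (by omega)
  set R : ℝ := 2 ^ (n + 2) with hR
  have hR4 : R ≤ 4 * |(a : ℝ)| := by
    rw [hR, pow_add]
    linarith
  have hR2 : |(a : ℝ)| ≤ R / 2 := by
    have : R / 2 = 2 ^ (n + 1) := by
      rw [hR, pow_succ (2 : ℝ) (n + 1)]
      ring
    rw [this]
    exact hn2'.le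
  -- `a` is good
  have hg : Tr q G (1 / ((j : ℝ) + 1)) (j + 2) R a := by
    by_contra hc
    apply ha
    refine ⟨n, by omega, hn1, hn2, ?_⟩
    unfold Bk
    rw [mem_biUnion]
    refine ⟨i, by rw [mem_range]; omega, ?_⟩
    unfold Bd
    rw [mem_filter, hi]
    simp only
    rw [hS]
    refine ⟨?_, hG, ?_⟩
    · rw [mem_Icc, Int.ceil_le, Int.le_floor]
      exact abs_le.1 hR2
    · rintro (h | h)
      · rw [h] at ha0
        exact ha0 rfl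
      · exact hc h
  -- sizes
  have hb0 : 0 < |(a : ℝ)| := by linarith
  have hb1 : 1 ≤ |(a : ℝ)| := by linarith
  have hR0 : 0 < R := by positivity
  have hR1 : 1 ≤ R := by linarith
  have hεj : 1 / ((j : ℝ) + 1) ≤ ε / 2 := by
    have h4 : (e1 : ℝ) ≤ j := by
      have : e1 ≤ j := by omega
      exact_mod_cast this
    rw [div_le_iff₀ hε] at he1
    rw [div_le_div_iff₀ (by positivity) (by norm_num)]
    nlinarith
  have hx1' : R ^ (2 + 1 / ((j : ℝ) + 1)) ≤ x := by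
    refine le_trans ?_ hx1
    have k1 : R ^ (2 + 1 / ((j : ℝ) + 1)) ≤ R ^ (2 + ε / 2) :=
      Real.rpow_le_rpow_of_exponent_le hR1 (by linarith)
    have k2 : R ^ (2 + ε / 2) ≤ (4 * |(a : ℝ)|) ^ (2 + ε / 2) := Real.rpow_le_rpow hR0.le hR4 (by positivity)
    have k3 : (4 * |(a : ℝ)|) ^ (2 + ε / 2) = 4 ^ (2 + ε / 2) * |(a : ℝ)| ^ (2 + ε / 2) :=
      Real.mul_rpow (by norm_num) hb0.le
    have k4 : (4 : ℝ) ^ (2 + ε / 2) ≤ |(a : ℝ)| ^ (ε / 2) := by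
      refine le_trans ?_ (ha₁ _ h3c)
      exact Real.rpow_le_rpow_of_exponent_le (by norm_num) (by linarith)
    have k5 : |(a : ℝ)| ^ (2 + ε) = |(a : ℝ)| ^ (ε / 2) * |(a : ℝ)| ^ (2 + ε / 2) := by
      rw [← Real.rpow_add hb0]
      congr 1
      ring
    rw [k5]
    calc R ^ (2 + 1 / ((j : ℝ) + 1)) ≤ 4 ^ (2 + ε / 2) * |(a : ℝ)| ^ (2 + ε / 2) := by
          rw [← k3]
          exact k1.trans k2
      _ ≤ |(a : ℝ)| ^ (ε / 2) * |(a : ℝ)| ^ (2 + ε / 2) := mul_le_mul_of_nonneg_right k4 (by positivity)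
  have hx3 : |(a : ℝ)| ≤ x := by
    refine le_trans ?_ hx1
    calc |(a : ℝ)| = |(a : ℝ)| ^ (1 : ℝ) := (Real.rpow_one _).symm
      _ ≤ _ := Real.rpow_le_rpow_of_exponent_le hb1 (by linarith)
  have hε3 : ε ≤ 1 / 2 := by
    have h4 := (hx1.trans hx2)
    have h5 := (Real.rpow_le_rpow_left_iff (show 1 < |(a : ℝ)| by linarith)).1 h4
    linarith
  have hx2' : x ≤ R ^ (3 - 1 / ((j : ℝ) + 1)) := by
    refine hx2.trans ?_
    have hbR : |(a : ℝ)| ≤ R := by linarith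
    calc |(a : ℝ)| ^ (3 - ε) ≤ R ^ (3 - ε) := Real.rpow_le_rpow hb0.le hbR (by linarith)
      _ ≤ _ := Real.rpow_le_rpow_of_exponent_le hR1 (by linarith)
  refine (hg x hx1' hx2').trans ?_
  have hlog : 1 ≤ Real.log x := log_ge_one (by linarith)
  apply div_le_div_of_nonneg_left (Real.sqrt_nonneg _) (by positivity)
  exact pow_le_pow_right₀ hlog (by omega)

end Pool.Agent.H92L
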