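import Pool.Agent.H92L.Quart
import Pool.Graph.R_seed8.Y699.Qc

/-!
# The finite parts of the Hecke characters of the curves `y² = x³ - n x`
-/

set_option autoImplicit false
set_option linter.unusedSectionVars false

open H385 (ZI RQ im1 nrm)

namespace Pool.Agent.H92L

open Pool.Agent.Y699
open Pool.Agent.W164.RC (Ip Ip_spec Ip_exists Ip_one Ip_three dg two2 prim_iff_dvd unit_norm unit_cases)
open Pool.Agent.H304R2.EC.A1 (prim prim_mul prim_cancel prim_one prim_norm_odd prim_star eq_one_of_prim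
  norm_def' re_mul' im_mul' eq_of_dvd prim_ne_zero)

/-- the sign part -/
def sg (m : ℤ) (α : ZI) : ZI := if m % 4 = 1 then 1 else (-1) ^ (nrm α / 4)

/-- the quartic symbol of `2 ^ k m` at primary elements -/
noncomputable def FF (k : ℕ) (m : ℤ) (α : ZI) : ZI := Q2 α ^ k * (sg m α * Rs α m.natAbs)

lemma prim_norm_mod {α : ZI} (h : prim α) : α.norm % 4 = 1 := by
  obtain ⟨h1, h2⟩ := h
  obtain ⟨b, hb⟩ : ∃ b, α.im = 2 * b := ⟨α.im / 2, by omega⟩
  obtain ⟨a, ha⟩ : ∃ a, α.re = 2 * a + 1 := ⟨α.re / 2, by omega⟩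
  rw [norm_def', ha, hb]
  have : (2 * a + 1) ^ 2 + (2 * b) ^ 2 = 4 * (a ^ 2 + a + b ^ 2) + 1 := by ring
  omega

lemma nrm_mul (α β : ZI) : nrm (α * β) = nrm α * nrm β := by
  unfold nrm
  rw [Zsqrtd.norm_mul, Int.natAbs_mul]

lemma prim_nrm_mod {α : ZI} (h : prim α) : nrm α % 4 = 1 := by
  have h1 := prim_norm_mod h
  have h2 := nrm_cast α
  omega

lemma sg_mul (m : ℤ) {α β : ZI} (ha : prim α) (hb : prim β) : sg m (α * β) = sg m α * sg m β := by
  unfold sg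
  split_ifs with h
  · rw [one_mul]
  · rw [← pow_add, nrm_mul]
    have h1 := prim_nrm_mod ha
    have h2 := prim_nrm_mod hb
    obtain ⟨a, ha⟩ : ∃ a, nrm α = 4 * a + 1 := ⟨nrm α / 4, by omega⟩
    obtain ⟨b, hb⟩ : ∃ b, nrm β = 4 * b + 1 := ⟨nrm β / 4, by omega⟩
    rw [ha, hb]
    have e1 : (4 * a + 1) * (4 * b + 1) / 4 = (a + b) + 2 * (2 * (a * b)) := by
      have : (4 * a + 1) * (4 * b + 1) = 4 * ((a + b) + 2 * (2 * (a * b))) + 1 := by ring
      omega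
    have e2 : (4 * a + 1) / 4 + (4 * b + 1) / 4 = a + b := by omega
    rw [e1, e2, pow_add, pow_mul (-1 : ZI) 2]
    norm_num

lemma Q2_mul {α β : ZI} (ha : prim α) (hb : prim β) : Q2 (α * β) = Q2 α * Q2 β := by
  unfold Q2
  rw [← ip_add]
  apply ip_congr
  obtain ⟨a1, a2⟩ := ha
  obtain ⟨b1, b2⟩ := hb
  rw [re_mul', im_mul']
  obtain ⟨b, hb⟩ : ∃ b, α.im = 2 * b := ⟨α.im / 2, by omega⟩
  obtain ⟨d, hd⟩ : ∃ d, β.im = 2 * d := ⟨β.im / 2, by omega⟩
  obtain ⟨a, ha⟩ : ∃ a, α.re = 2 * a + 1 := ⟨α.re / 2, by omega⟩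
  obtain ⟨c, hc⟩ : ∃ c, β.re = 2 * c + 1 := ⟨β.re / 2, by omega⟩
  rw [ha, hb, hc, hd]
  have h1 : (a + b) % 2 = 0 := by omega
  have h2 : (c + d) % 2 = 0 := by omega
  have e1 : ((2 * a + 1) * (2 * c + 1) - 2 * b * (2 * d)) * ((2 * a + 1) * (2 * d) + 2 * b * (2 * c + 1)) / 2 =
      ((2 * a + 1) * (2 * c + 1) - 4 * (b * d)) * ((2 * a + 1) * d + b * (2 * c + 1)) := by
    have : ((2 * a + 1) * (2 * c + 1) - 2 * b * (2 * d)) * ((2 * a + 1) * (2 * d) + 2 * b * (2 * c + 1)) =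
      2 * (((2 * a + 1) * (2 * c + 1) - 4 * (b * d)) * ((2 * a + 1) * d + b * (2 * c + 1))) := by ring
    rw [this]
    omega
  have e2 : (2 * a + 1) * (2 * b) / 2 = (2 * a + 1) * b := by
    have : (2 * a + 1) * (2 * b) = 2 * ((2 * a + 1) * b) := by ring
    rw [this]
    omega
  have e3 : (2 * c + 1) * (2 * d) / 2 = (2 * c + 1) * d := by
    have : (2 * c + 1) * (2 * d) = 2 * ((2 * c + 1) * d) := by ring
    rw [this]
    omega
  rw [e1, e2, e3]
  -- modulo four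
  have key : ∀ a b c d : ZMod 4, ((2 * a + 1) * (2 * c + 1) - 4 * (b * d)) * ((2 * a + 1) * d + b * (2 * c + 1)) =
      (2 * a + 1) * b + (2 * c + 1) * d := by decide
  have h3 := key a b c d
  have h4 := (ZMod.intCast_eq_intCast_iff'
    (((2 * a + 1) * (2 * c + 1) - 4 * (b * d)) * ((2 * a + 1) * d + b * (2 * c + 1)))
    ((2 * a + 1) * b + (2 * c + 1) * d) 4).1 (by push_cast; exact h3)
  exact h4

lemma FF_mul (k : ℕ) (m : ℤ) {α β : ZI} (ha : prim α) (hb : prim β) : FF k m (α * β) = FF k m α * FF k m β := by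
  unfold FF
  rw [Q2_mul ha hb, sg_mul m ha hb, Rs_mul, mul_pow]
  ring

lemma FF_one (k : ℕ) (m : ℤ) : FF k m 1 = 1 := by
  unfold FF
  have h1 : Q2 1 = 1 := by
    unfold Q2
    decide
  have h2 : sg m 1 = 1 := by
    unfold sg
    split_ifs
    · rfl
    · decide
  have h3 : Rs 1 m.natAbs = 1 := by
    have := Rs_rat (m := 1) (n := m.natAbs) (fun q hq _ h => by
      have h4 : q ∣ 1 := by exact_mod_cast h
      exact hq.one_lt.ne' (Nat.dvd_one.1 h4))
    simpa using this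
  rw [h1, h2, h3, one_pow, one_mul, one_mul]

lemma Q2_star {α : ZI} (ha : prim α) : Q2 (star α) = star (Q2 α) := by
  unfold Q2
  rw [ip_star]
  apply ip_congr
  rw [Zsqrtd.re_star, Zsqrtd.im_star]
  obtain ⟨b, hb⟩ : ∃ b, α.im = 2 * b := ⟨α.im / 2, by have := ha.1; omega⟩
  rw [hb]
  have e1 : α.re * -(2 * b) = 2 * (-(α.re * b)) := by ring
  have e2 : α.re * (2 * b) = 2 * (α.re * b) := by ring
  rw [e1, e2]
  omega

lemma star_pow_int (k : ℕ) : star ((-1 : ZI) ^ k) = (-1) ^ k := by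
  rw [star_pow, star_neg, star_one]

lemma sg_star (m : ℤ) (α : ZI) : sg m (star α) = star (sg m α) := by
  unfold sg
  rw [nrm_star]
  split_ifs
  · rw [star_one]
  · rw [star_pow_int]

lemma FF_star (k : ℕ) (m : ℤ) {α : ZI} (ha : prim α) : FF k m (star α) = star (FF k m α) := by
  unfold FF
  rw [Q2_star ha, sg_star, Rs_star, star_mul, star_mul, star_pow]
  ring

lemma dvd_re_im {q : ℤ} {z : ZI} (h : (q : ZI) ∣ z) : q ∣ z.re ∧ q ∣ z.im := by
  obtain ⟨c, rfl⟩ := h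
  constructor
  · exact ⟨c.re, by simp⟩
  · exact ⟨c.im, by simp⟩

lemma Q2_per {α β : ZI} (h : ((8 : ℤ) : ZI) ∣ α - β) (ha : prim α) (_ : prim β) : Q2 α = Q2 β := by
  obtain ⟨⟨x, hx⟩, ⟨y, hy⟩⟩ := dvd_re_im h
  rw [Zsqrtd.re_sub] at hx
  rw [Zsqrtd.im_sub] at hy
  unfold Q2
  apply ip_congr
  obtain ⟨b, hb⟩ : ∃ b, α.im = 2 * b := ⟨α.im / 2, by have := ha.1; omega⟩
  have h1 : β.re = α.re - 8 * x := by linarith
  have h2 : β.im = 2 * (b - 4 * y) := by linarith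
  rw [h1, h2, hb]
  have e1 : α.re * (2 * b) = 2 * (α.re * b) := by ring
  have e2 : (α.re - 8 * x) * (2 * (b - 4 * y)) = 2 * (α.re * b - 4 * (α.re * y + 2 * (x * b) - 8 * (x * y))) := by ring
  rw [e1, e2]
  omega

lemma nrm_cong {α β : ZI} (h : ((8 : ℤ) : ZI) ∣ α - β) : nrm α % 8 = nrm β % 8 := by
  obtain ⟨⟨x, hx⟩, ⟨y, hy⟩⟩ := dvd_re_im h
  rw [Zsqrtd.re_sub] at hx
  rw [Zsqrtd.im_sub] at hy
  have h1 := nrm_cast α
  have h2 := nrm_cast β
  rw [norm_def'] at h1 h2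
  have e1 : β.re = α.re - 8 * x := by linarith
  have e2 : β.im = α.im - 8 * y := by linarith
  rw [e1, e2] at h2
  have e3 : (α.re - 8 * x) ^ 2 + (α.im - 8 * y) ^ 2 = α.re ^ 2 + α.im ^ 2 +
      8 * (-2 * α.re * x + 8 * x ^ 2 - 2 * α.im * y + 8 * y ^ 2) := by ring
  rw [e3, ← h1] at h2
  omega

lemma sg_per (m : ℤ) {α β : ZI} (h : ((8 : ℤ) : ZI) ∣ α - β) : sg m α = sg m β := by
  unfold sg
  split_ifs
  · rfl
  · have h1 := nrm_cong h
    have h2 : (nrm α / 4) % 2 = (nrm β / 4) % 2 := by omega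
    rcases Nat.mod_two_eq_zero_or_one (nrm α / 4) with h3 | h3
    · rw [Even.neg_one_pow (Nat.even_iff.2 h3), Even.neg_one_pow (Nat.even_iff.2 (by omega))]
    · rw [Odd.neg_one_pow (Nat.odd_iff.2 h3), Odd.neg_one_pow (Nat.odd_iff.2 (by omega))]

lemma cast_dvd_cast {a b : ℤ} (h : a ∣ b) : (a : ZI) ∣ (b : ZI) := by
  obtain ⟨c, rfl⟩ := h
  exact ⟨(c : ZI), by push_cast; ring⟩

lemma FF_per (k : ℕ) {m : ℤ} {α β : ZI} (h : ((8 * m : ℤ) : ZI) ∣ α - β) (ha : prim α) (hb : prim β) :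
    FF k m α = FF k m β := by
  have h8 : ((8 : ℤ) : ZI) ∣ α - β := (cast_dvd_cast (dvd_mul_right 8 m)).trans h
  have hm : ((m.natAbs : ℕ) : ZI) ∣ α - β := by
    have h1 : (((m.natAbs : ℕ) : ℤ) : ZI) ∣ ((8 * m : ℤ) : ZI) :=
      cast_dvd_cast ((Int.natAbs_dvd.2 dvd_rfl).mul_left 8)
    rw [Int.cast_natCast] at h1
    exact h1.trans h
  unfold FF
  rw [Q2_per h8 ha hb, sg_per m h8, Rs_per hm]

lemma Rp_norm {q : ℕ} (hq : q.Prime) {α : ZI} (h : IsCoprime α (q : ZI)) : (Rp α q).norm = 1 := by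
  unfold Rp
  apply prod_norm
  intro z hz
  have hz' := PP_ip hq hz
  apply q4_norm hz'
  intro hd
  obtain ⟨a, b, hab⟩ := h
  have h1 : z ∣ 1 := by
    rw [← hab]
    exact dvd_add (hd.mul_left _) ((Ip_spec hq hz).2.2.2.mul_left _)
  exact hz'.pr.not_isUnit (isUnit_of_dvd_one h1)

lemma Rs_norm {α : ZI} {n : ℕ} (h : IsCoprime α (n : ZI)) : (Rs α n).norm = 1 := by
  unfold Rs
  have key : ∀ L : List ℕ, (∀ q ∈ L, q.Prime ∧ IsCoprime α (q : ZI)) → (L.map (Rp α)).prod.norm = 1 := by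
    intro L
    induction L with
    | nil => intro _; simp
    | cons a L ih =>
      intro hL
      have h1 := hL a List.mem_cons_self
      rw [List.map_cons, List.prod_cons, Zsqrtd.norm_mul, Rp_norm h1.1 h1.2,
        ih (fun q hq => hL q (List.mem_cons_of_mem _ hq)), one_mul]
  apply key
  intro q hq
  exact ⟨Nat.prime_of_mem_primeFactorsList hq,
    h.of_isCoprime_of_dvd_right (Nat.cast_dvd_cast (Nat.dvd_of_mem_primeFactorsList hq))⟩

lemma norm_pow_one {x : ZI} (h : x.norm = 1) (k : ℕ) : (x ^ k).norm = 1 := by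
  induction k with
  | zero => simp
  | succ k ih => rw [pow_succ, Zsqrtd.norm_mul, ih, h, one_mul]

lemma FF_norm (k : ℕ) {m : ℤ} {α : ZI} (h : IsCoprime α (m : ZI)) : (FF k m α).norm = 1 := by
  have h1 : IsCoprime α ((m.natAbs : ℕ) : ZI) := by
    apply h.of_isCoprime_of_dvd_right
    have h2 : (((m.natAbs : ℕ) : ℤ) : ZI) ∣ (m : ZI) := cast_dvd_cast (Int.natAbs_dvd.2 dvd_rfl)
    rwa [Int.cast_natCast] at h2
  unfold FF
  rw [Zsqrtd.norm_mul, Zsqrtd.norm_mul, Rs_norm h1, norm_pow_one (show (Q2 α).norm = 1 from ip_norm _)]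
  unfold sg
  split_ifs
  · simp
  · rw [norm_pow_one (by decide)]
    norm_num

/-- the symbol at primes of degree one -/
theorem FF_q4 (k : ℕ) {m : ℤ} (hm : m % 2 = 1) {π : ZI} (h : PP π) {p : ℕ} (hp : p.Prime) (hn : π.norm = p)
    (hd : ¬ π ∣ (m : ZI)) : q4 π ((2 ^ k * m : ℤ) : ZI) = FF k m π := by
  have e : ((2 ^ k * m : ℤ) : ZI) = 2 ^ k * (m : ZI) := by push_cast; rfl
  rw [e, q4_mul h, q4_pow h, q4_two h hp hn, q4_int jj h hm hd]
  rfl

/-- being primary depends on the class modulo four -/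
lemma prim_congr {α β : ZI} (h : ((4 : ℤ) : ZI) ∣ α - β) (ha : prim α) : prim β := by
  obtain ⟨⟨x, hx⟩, ⟨y, hy⟩⟩ := dvd_re_im h
  rw [Zsqrtd.re_sub] at hx
  rw [Zsqrtd.im_sub] at hy
  obtain ⟨h1, h2⟩ := ha
  constructor <;> omega

lemma un_spec {a : ZI} (ha : a.norm % 2 = 1) : (un a).norm = 1 ∧ prim (un a * a) := by
  obtain ⟨u, hu⟩ := exists_Um ha
  rw [un_eq hu]
  exact hu

lemma un_congr {α β : ZI} (h : ((4 : ℤ) : ZI) ∣ α - β) (ha : α.norm % 2 = 1) : un α = un β := by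
  obtain ⟨u, hu⟩ := exists_Um ha
  have h1 : Um β u := by
    refine ⟨hu.1, prim_congr ?_ hu.2⟩
    rw [← mul_sub]
    exact h.mul_left u
  rw [un_eq hu, un_eq h1]

lemma un_star' {a : ZI} (ha : a.norm % 2 = 1) : un (star a) = star (un a) := by
  obtain ⟨u, hu⟩ := exists_Um ha
  rw [un_eq hu]
  apply un_eq
  refine ⟨by rw [Zsqrtd.norm_conj]; exact hu.1, ?_⟩
  rw [← star_mul']
  exact prim_star hu.2

lemma odd_of_cop {Q : ℕ} (h2 : 2 ∣ Q) {a : ZI} (h : IsCoprime a (Q : ZI)) : a.norm % 2 = 1 := by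
  obtain ⟨u, v, huv⟩ := h
  obtain ⟨c, rfl⟩ := h2
  by_contra hc
  have h1 : a.norm % 2 = 0 := by omega
  have e1 := congrArg Zsqrtd.norm huv
  have e2 := congrArg Zsqrtd.re huv
  have e3 := congrArg Zsqrtd.im huv
  rw [Zsqrtd.re_add, re_mul', re_mul'] at e2
  rw [Zsqrtd.im_add, im_mul', im_mul'] at e3
  rw [norm_def'] at h1
  simp only [Nat.cast_mul, Nat.cast_ofNat, Zsqrtd.re_mul, Zsqrtd.im_mul, Zsqrtd.re_ofNat, Zsqrtd.im_ofNat,
    Zsqrtd.re_natCast, Zsqrtd.im_natCast, Zsqrtd.re_one, Zsqrtd.im_one] at e2 e3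
  have h4 : (a.re + a.im) % 2 = 0 := by
    have h5 : a.re ^ 2 % 2 = a.re % 2 := by
      rcases Int.emod_two_eq_zero_or_one a.re with h | h <;> rw [sq, Int.mul_emod, h] <;> norm_num
    have h6 : a.im ^ 2 % 2 = a.im % 2 := by
      rcases Int.emod_two_eq_zero_or_one a.im with h | h <;> rw [sq, Int.mul_emod, h] <;> norm_num
    omega
  obtain ⟨t, ht⟩ : ∃ t, a.im = 2 * t - a.re := ⟨(a.re + a.im) / 2, by omega⟩
  rw [ht] at e2 e3
  have e4 : 2 * (u.im * a.re - u.im * t + u.re * t + c * v.re + c * v.im) = 1 := by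
    linear_combination e2 + e3
  omega

open Classical in
/-- the finite part of the Hecke character of `y² = x³ - 2 ^ k m x` modulo `Q` -/
noncomputable def et (Q k : ℕ) (m : ℤ) (hQ : 2 ∣ Q) : ZI →* ZI where
  toFun z := if IsCoprime z (Q : ZI) then un z * star (FF k m (un z * z)) else 0
  map_one' := by
    rw [if_pos isCoprime_one_left, un_prim prim_one, one_mul, one_mul, FF_one, star_one]
  map_mul' := by
    intro a b
    by_cases ha : IsCoprime a (Q : ZI)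
    · by_cases hb : IsCoprime b (Q : ZI)
      · rw [if_pos (ha.mul_left hb), if_pos ha, if_pos hb]
        have h1 := un_spec (odd_of_cop hQ ha)
        have h2 := un_spec (odd_of_cop hQ hb)
        have e : un (a * b) * (a * b) = (un a * a) * (un b * b) := by rw [un_mul]; ring
        rw [e, FF_mul k m h1.2 h2.2, un_mul, star_mul]
        ring
      · rw [if_neg hb, mul_zero, if_neg]
        intro h
        exact hb (IsCoprime.mul_left_iff.1 h).2
    · rw [if_neg ha, zero_mul, if_neg]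
      intro h
      exact ha (IsCoprime.mul_left_iff.1 h).1

lemma et_apply {Q : ℕ} (hQ : 2 ∣ Q) (k : ℕ) (m : ℤ) {z : ZI} (hz : IsCoprime z (Q : ZI)) :
    et Q k m hQ z = un z * star (FF k m (un z * z)) := if_pos hz

lemma et_zero {Q : ℕ} (hQ : 2 ∣ Q) (k : ℕ) (m : ℤ) {z : ZI} (hz : ¬ IsCoprime z (Q : ZI)) :
    et Q k m hQ z = 0 := if_neg hz

lemma cop_congr {Q : ℕ} {a b : ZI} (h : (Q : ZI) ∣ a - b) (ha : IsCoprime a (Q : ZI)) : IsCoprime b (Q : ZI) := by
  obtain ⟨c, hc⟩ := h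
  obtain ⟨u, v, huv⟩ := ha
  refine ⟨u, v + u * c, ?_⟩
  have : a = b + (Q : ZI) * c := by linear_combination hc
  rw [this] at huv
  linear_combination huv

lemma et_per {Q : ℕ} (hQ : 2 ∣ Q) (k : ℕ) {m : ℤ} (hm : 8 * m ∣ Q) {a b : ZI} (h : (Q : ZI) ∣ a - b) :
    et Q k m hQ a = et Q k m hQ b := by
  by_cases ha : IsCoprime a (Q : ZI)
  · have hb := cop_congr h ha
    rw [et_apply hQ k m ha, et_apply hQ k m hb]
    have h8 : ((8 * m : ℤ) : ZI) ∣ a - b := by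
      have := cast_dvd_cast hm
      rw [Int.cast_natCast] at this
      exact this.trans h
    have h4 : ((4 : ℤ) : ZI) ∣ a - b := (cast_dvd_cast (show (4 : ℤ) ∣ 8 * m from ⟨2 * m, by ring⟩)).trans h8
    have hu := un_congr h4 (odd_of_cop hQ ha)
    have h1 := un_spec (odd_of_cop hQ ha)
    have h2 := un_spec (odd_of_cop hQ hb)
    rw [← hu] at h2 ⊢
    rw [FF_per k (α := un a * a) (β := un a * b) (by rw [← mul_sub]; exact h8.mul_left _) h1.2 h2.2]
  · have hb : ¬ IsCoprime b (Q : ZI) := by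
      intro hb
      apply ha
      apply cop_congr _ hb
      rw [← neg_sub]
      exact (dvd_neg).2 h
    rw [et_zero hQ k m ha, et_zero hQ k m hb]

lemma et_norm {Q : ℕ} (hQ : 2 ∣ Q) (k : ℕ) {m : ℤ} (hm : 8 * m ∣ Q) {z : ZI} (hz : IsCoprime z (Q : ZI)) :
    (et Q k m hQ z).norm = 1 := by
  have h1 := un_spec (odd_of_cop hQ hz)
  rw [et_apply hQ k m hz, Zsqrtd.norm_mul, h1.1, Zsqrtd.norm_conj, FF_norm, one_mul]
  have h2 : IsCoprime (un z * z) (Q : ZI) := by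
    apply IsCoprime.mul_left _ hz
    refine ⟨star (un z), 0, ?_⟩
    rw [zero_mul, add_zero, mul_comm]
    exact unit_star_mul h1.1
  apply h2.of_isCoprime_of_dvd_right
  have := cast_dvd_cast ((dvd_mul_left m 8).trans hm)
  rwa [Int.cast_natCast] at this

lemma cop_star {Q : ℕ} {z : ZI} (hz : IsCoprime z (Q : ZI)) : IsCoprime (star z) (Q : ZI) := by
  obtain ⟨u, v, huv⟩ := hz
  refine ⟨star u, star v, ?_⟩
  have := congrArg star huv
  rw [star_add, star_mul', star_mul', star_one, star_natCast] at this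
  exact this

lemma et_star {Q : ℕ} (hQ : 2 ∣ Q) (k : ℕ) (m : ℤ) (z : ZI) : et Q k m hQ (star z) = star (et Q k m hQ z) := by
  by_cases hz : IsCoprime z (Q : ZI)
  · rw [et_apply hQ k m hz, et_apply hQ k m (cop_star hz)]
    have ho := odd_of_cop hQ hz
    have h1 := un_spec ho
    have e : un (star z) * star z = star (un z * z) := by rw [un_star' ho, star_mul']
    rw [e, FF_star k m h1.2, un_star' ho, star_mul']
  · have : ¬ IsCoprime (star z) (Q : ZI) := by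
      intro h
      apply hz
      have := cop_star h
      rwa [star_star] at this
    rw [et_zero hQ k m hz, et_zero hQ k m this, star_zero]

end Pool.Agent.H92L
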