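import Pool.Agent.H92L.Fin

/-!
# The number of primes with given traces, and the number of pairs `(a, m)`, continued
-/

set_option autoImplicit false
set_option linter.unusedSectionVars false

open Finset
open H385 (ZI)

namespace Pool.Agent.H92L

open Pool.Agent.H304R2.EC.A1 (norm_def' re_mul' im_mul')

variable {k : ℕ} {W : Fin (k + 1) → WeierstrassCurve ℤ} {η : Fin (k + 1) → (ZI →* ZI)} {Q : ℕ}
  {e : Fin (k + 1) → ℤ} {P : ZI → Prop}

lemma cop_z {p : ℕ} (hp : p.Prime) (hpQ : ¬ p ∣ Q) {z : ZI} (hz : z.norm = p) : IsCoprime z (Q : ZI) := by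
  have h1 : IsCoprime (p : ℤ) (Q : ℤ) := by
    rw [(Nat.prime_iff_prime_int.1 hp).coprime_iff_not_dvd]
    intro h
    exact hpQ (by exact_mod_cast h)
  obtain ⟨u, v, huv⟩ := h1
  refine ⟨(u : ZI) * star z, (v : ZI), ?_⟩
  have h2 : star z * z = ((p : ℤ) : ZI) := by
    rw [mul_comm, ← Zsqrtd.norm_eq_mul_conj, hz]
  have h3 := congrArg (Int.cast : ℤ → ZI) huv
  push_cast at h3 h2
  rw [mul_assoc, h2]
  exact h3

/-- a prime is not twice a square, and not a square -/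
lemma sq_ne {a m : ℤ} {p : ℕ} (hp : p.Prime) (h2 : p ≠ 2) (h : a ^ 2 + m ^ 2 = p) : a ≠ 0 ∧ m ≠ 0 ∧ a ^ 2 ≠ m ^ 2 := by
  obtain ⟨h1, h3⟩ := Pool.Agent.N782.GN.LT.prime_ne_sq hp h
  refine ⟨h3, h1, fun h4 => ?_⟩
  have h5 : 2 * a ^ 2 = (p : ℤ) := by linarith
  have h6 : 2 * a.natAbs ^ 2 = p := by
    zify
    rw [sq_abs]
    exact h5
  have h7 : 2 ∣ p := ⟨_, h6.symm⟩
  exact h2 ((Nat.prime_dvd_prime_iff_eq Nat.prime_two hp).1 h7).symm

lemma unit_re {a m : ℤ} {p : ℕ} (hp : p.Prime) (h2 : p ≠ 2) (h : a ^ 2 + m ^ 2 = p) {u : ZI} (hu : u.norm = 1)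
    {e : ℤ} (he : e = 1 ∨ e = -1) (hr : (u * ⟨a, m⟩).re = e * a) : u = (e : ZI) := by
  obtain ⟨k1, k2, k3⟩ := sq_ne hp h2 h
  rcases unit_list hu with h1 | h1 | h1 | h1
  · rw [h1, one_mul] at hr
    simp only at hr
    have h4 : e = 1 := by
      rcases he with h4 | h4
      · exact h4
      · exfalso
        rw [h4] at hr
        omega
    rw [h1, h4, Int.cast_one]
  · rw [h1, neg_one_mul, Zsqrtd.re_neg] at hr
    simp only at hr
    have h4 : e = -1 := by
      rcases he with h4 | h4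
      · exfalso
        rw [h4] at hr
        omega
      · exact h4
    rw [h1, h4, Int.cast_neg, Int.cast_one]
  · exfalso
    rw [h1, re_mul'] at hr
    simp only at hr
    apply k3
    rcases he with h4 | h4 <;> rw [h4] at hr
    · have : m = -a := by linarith
      rw [this]; ring
    · have : m = a := by linarith
      rw [this]
  · exfalso
    rw [h1, re_mul'] at hr
    simp only at hr
    apply k3
    rcases he with h4 | h4 <;> rw [h4] at hr
    · have : m = a := by linarith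
      rw [this]
    · have : m = -a := by linarith
      rw [this]; ring

/-- the primes which do not divide `Q` and have the given traces -/
theorem rep_iff (h : Dt W η Q) (he : ∀ i, e i = 1 ∨ e i = -1) {p : ℕ} (hp : p.Prime) (hpQ : ¬ p ∣ Q)
    {a : ℤ} (ha : a ≠ 0) (ht : ∀ i, trace (W i) p = e i * (2 * a)) :
    ∃ m : ℕ, 1 ≤ m ∧ a.natAbs ^ 2 + m ^ 2 = p ∧ ∀ i, η i ⟨a, m⟩ = (e i : ZI) := by
  have hp2 : p ≠ 2 := by rintro rfl; exact hpQ h.two
  have h4 : p % 4 = 1 := by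
    have ho : p % 2 = 1 := by
      rcases hp.eq_two_or_odd with h1 | h1
      · exact absurd h1 hp2
      · exact h1
    by_contra hc
    have h3 : p % 4 = 3 := by omega
    have h5 := (h.hk 0).inert p hp hpQ h3
    rw [ht 0] at h5
    rcases he 0 with h6 | h6 <;> rw [h6] at h5 <;> omega
  obtain ⟨z0, hz0⟩ := exists_z hp h4
  have hc0 := cop_z hp hpQ hz0
  set v := η 0 z0 with hv
  have hvn : v.norm = 1 := h.hs.unit 0 z0 hc0
  have h0 := (h.hk 0).split p z0 hp hpQ hz0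
  rw [ht 0, ← hv] at h0
  -- the element with real part `a`
  set z1 : ZI := (e 0 : ZI) * (v * z0) with hz1
  have hre : z1.re = a := by
    rw [hz1]
    have h5 : (v * z0).re = e 0 * a := by linarith
    have h6 : ((e 0 : ZI) * (v * z0)).re = e 0 * (v * z0).re := by simp
    rw [h6, h5]
    rcases he 0 with h7 | h7 <;> rw [h7] <;> ring
  have hn1 : z1.norm = p := by
    rw [hz1, Zsqrtd.norm_mul, Zsqrtd.norm_mul, hvn, hz0]
    rcases he 0 with h7 | h7 <;> rw [h7] <;> simp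
  have hsum : a ^ 2 + z1.im ^ 2 = p := by
    rw [← hn1, norm_def', hre]
  obtain ⟨k1, k2, k3⟩ := sq_ne hp hp2 hsum
  refine ⟨z1.im.natAbs, by omega, ?_, fun i => ?_⟩
  · zify
    rw [sq_abs, sq_abs]
    exact hsum
  · have hm : ((z1.im.natAbs : ℕ) : ℤ) ^ 2 = z1.im ^ 2 := by
      rw [Int.natCast_natAbs, sq_abs]
    have hs2 : a ^ 2 + ((z1.im.natAbs : ℕ) : ℤ) ^ 2 = p := by rw [hm]; exact hsum
    have hn2 : (⟨a, ((z1.im.natAbs : ℕ) : ℤ)⟩ : ZI).norm = p := by
      rw [norm_def']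
      exact hs2
    have h5 := (h.hk i).split p _ hp hpQ hn2
    rw [ht i] at h5
    exact unit_re hp hp2 hs2 (h.hs.unit i _ (cop_z hp hpQ hn2)) (he i) (by linarith)

theorem cnt_even (h : Dt W η Q) (he : ∀ i, e i = 1 ∨ e i = -1) (hP : PC Q P) {a : ℤ} (ha : a ≠ 0) {x : ℝ}
    (hx : 0 ≤ x) : piG (GG η e P) a x ≤ cnt W e P (2 * a) x ∧ cnt W e P (2 * a) x ≤ piG (GG η e P) a x + Q := by
  classical
  have hcast : ∀ m : ℕ, ((a.natAbs ^ 2 + m ^ 2 : ℕ) : ℤ) = a ^ 2 + (m : ℤ) ^ 2 := by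
    intro m
    push_cast
    rw [sq_abs]
  have hfl : ∀ m : ℕ, 1 ≤ m → (m ≤ ⌊Real.sqrt (x - (a : ℝ) ^ 2)⌋₊ ↔ a.natAbs ^ 2 + m ^ 2 ≤ ⌊x⌋₊) := by
    intro m hm
    have hm1 : (1 : ℝ) ≤ m := by exact_mod_cast hm
    rw [Nat.le_floor_iff (Real.sqrt_nonneg _), Nat.le_floor_iff hx, Real.le_sqrt' (by linarith)]
    have h1 : ((a.natAbs ^ 2 + m ^ 2 : ℕ) : ℝ) = (a : ℝ) ^ 2 + (m : ℝ) ^ 2 := by
      push_cast
      rw [Nat.cast_natAbs]
      push_cast
      rw [sq_abs]
    rw [h1]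
    constructor
    · intro h
      linarith
    · intro h
      linarith
  set S := (Icc 1 ⌊Real.sqrt (x - (a : ℝ) ^ 2)⌋₊).filter (fun m : ℕ => (a.natAbs ^ 2 + m ^ 2).Prime ∧ GG η e P a m) with hS
  set T := (Icc 1 ⌊x⌋₊).filter (fun p : ℕ => p.Prime ∧ (∀ i, ¬ (p : ℤ) ∣ (W i).Δ ∧ trace (W i) p = e i * (2 * a)) ∧
    ∃ z : ZI, z.norm = p ∧ 2 * z.re = 2 * a ∧ P z) with hT
  have hpi : piG (GG η e P) a x = S.card := by
    unfold piG
    rw [hS]
  have hcn : cnt W e P (2 * a) x = T.card := by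
    unfold cnt
    rw [hT]
  rw [hpi, hcn]
  have hinj : Function.Injective (fun m : ℕ => a.natAbs ^ 2 + m ^ 2) := by
    intro m m' hmm
    have : m ^ 2 = m' ^ 2 := by
      have h1 : a.natAbs ^ 2 + m ^ 2 = a.natAbs ^ 2 + m' ^ 2 := hmm
      omega
    exact Nat.pow_left_injective (by norm_num) this
  constructor
  · apply card_le_card_of_injOn (fun m : ℕ => a.natAbs ^ 2 + m ^ 2) _ hinj.injOn
    intro m hm
    rw [hS, mem_coe, mem_filter, mem_Icc] at hm
    obtain ⟨⟨hm1, hm2⟩, hp, hG⟩ := hm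
    rw [hfl m hm1] at hm2
    simp only [hT, coe_filter, mem_Icc, Set.mem_ofPred_eq]
    have hn : (⟨a, m⟩ : ZI).norm = (a.natAbs ^ 2 + m ^ 2 : ℕ) := by
      rw [norm_def', hcast]
    have hpQ : ¬ (a.natAbs ^ 2 + m ^ 2) ∣ Q := by
      intro hd
      have hc : IsCoprime (⟨a, m⟩ : ZI) (Q : ZI) := by
        by_contra hc
        have h2 := h.hs.zero 0 _ hc
        rw [hG.1 0] at h2
        have h3 : e 0 = 0 := by exact_mod_cast h2
        rcases he 0 with h | h <;> rw [h] at h3 <;> norm_num at h3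
      have h1 := cop_down hc
      rw [← hcast] at h1
      have h2 : ((a.natAbs ^ 2 + m ^ 2 : ℕ) : ℤ) ∣ (Q : ℤ) := Int.natCast_dvd_natCast.2 hd
      have h3 := h1.isUnit_of_dvd' dvd_rfl h2
      have h4 := Int.isUnit_iff_natAbs_eq.1 h3
      rw [Int.natAbs_natCast] at h4
      exact hp.one_lt.ne' h4
    refine ⟨⟨hp.pos, hm2⟩, hp, fun i => ⟨h.good hp hpQ i, ?_⟩, ?_⟩
    · rw [(h.hk i).split _ ⟨a, m⟩ hp hpQ hn, hG.1 i]
      simp
      ring
    · exact ⟨⟨a, m⟩, hn, rfl, hG.2⟩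
  · have hsub : T ⊆ S.image (fun m : ℕ => a.natAbs ^ 2 + m ^ 2) ∪ Q.divisors := by
      intro p hp
      rw [hT, mem_filter, mem_Icc] at hp
      obtain ⟨⟨hp1, hpx⟩, hp, hti, z, hz1, hz2, hz3⟩ := hp
      rw [mem_union]
      by_cases hpQ : p ∣ Q
      · right
        rw [Nat.mem_divisors]
        exact ⟨hpQ, by have := h.pos; omega⟩
      · left
        obtain ⟨m, hm1, hm2, hm3⟩ := rep_iff h he hp hpQ ha (fun i => (hti i).2)
        rw [mem_image]
        refine ⟨m, ?_, hm2⟩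
        rw [hS, mem_filter, mem_Icc, hfl m hm1, hm2]
        refine ⟨⟨hm1, hpx⟩, hp, hm3, ?_⟩
        have hza : z.re = a := by linarith
        have hzm : z.im ^ 2 = (m : ℤ) ^ 2 := by
          have h5 := hcast m
          rw [hm2] at h5
          rw [norm_def', hza, h5] at hz1
          linarith
        rcases sq_eq_sq_iff_eq_or_eq_neg.1 hzm with h5 | h5
        · have h6 : (⟨a, m⟩ : ZI) = z := by
            apply Zsqrtd.ext
            · exact hza.symm
            · exact h5.symm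
          rw [h6]
          exact hz3
        · have h6 : (⟨a, m⟩ : ZI) = star z := by
            apply Zsqrtd.ext
            · rw [Zsqrtd.re_star]
              exact hza.symm
            · rw [Zsqrtd.im_star, h5]
              simp
          rw [h6]
          exact hP.conj _ hz3
    calc T.card ≤ (S.image (fun m : ℕ => a.natAbs ^ 2 + m ^ 2) ∪ Q.divisors).card := card_le_card hsub
      _ ≤ (S.image (fun m : ℕ => a.natAbs ^ 2 + m ^ 2)).card + Q.divisors.card := card_union_le _ _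
      _ ≤ S.card + Q := add_le_add card_image_le (Nat.card_divisors_le_self Q)

theorem cnt_odd (h : Dt W η Q) (he : ∀ i, e i = 1 ∨ e i = -1) {r : ℤ} (hr : r % 2 = 1) (x : ℝ) :
    cnt W e P r x ≤ Q := by
  classical
  unfold cnt
  refine le_trans (card_le_card (?_ : _ ⊆ Q.divisors)) (Nat.card_divisors_le_self Q)
  intro p hp
  rw [mem_filter, mem_Icc] at hp
  obtain ⟨⟨hp1, hpx⟩, hp, hti, hcq⟩ := hp
  rw [Nat.mem_divisors]
  refine ⟨?_, by have := h.pos; omega⟩
  by_contra hpQ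
  have h0 := (hti 0).2
  have hev : trace (W 0) p % 2 = 0 := by
    have hp2 : p ≠ 2 := by rintro rfl; exact hpQ h.two
    have ho : p % 2 = 1 := by
      rcases hp.eq_two_or_odd with h1 | h1
      · exact absurd h1 hp2
      · exact h1
    rcases (by omega : p % 4 = 1 ∨ p % 4 = 3) with h4 | h4
    · obtain ⟨z0, hz0⟩ := exists_z hp h4
      rw [(h.hk 0).split p z0 hp hpQ hz0]
      omega
    · rw [(h.hk 0).inert p hp hpQ h4]
      rfl
  rw [h0] at hev
  rcases he 0 with h6 | h6 <;> rw [h6] at hev <;> omega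

/-- two traces with different absolute values determine the prime -/
theorem two_traces (h : Dt W η Q) {p : ℕ} (hp : p.Prime) (hpQ : ¬ p ∣ Q) (i j : Fin (k + 1))
    (hne : |trace (W i) p| ≠ |trace (W j) p|) : trace (W i) p ^ 2 + trace (W j) p ^ 2 = 4 * p := by
  have hp2 : p ≠ 2 := by rintro rfl; exact hpQ h.two
  have ho : p % 2 = 1 := by
    rcases hp.eq_two_or_odd with h1 | h1
    · exact absurd h1 hp2
    · exact h1
  rcases (by omega : p % 4 = 1 ∨ p % 4 = 3) with h4 | h4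
  · obtain ⟨z, hz⟩ := exists_z hp h4
    have hc := cop_z hp hpQ hz
    have h1 := (h.hk i).split p z hp hpQ hz
    have h2 := (h.hk j).split p z hp hpQ hz
    have hzn : (p : ℤ) = z.re ^ 2 + z.im ^ 2 := by rw [← hz, norm_def']
    rw [hzn]
    rcases unit_list (h.hs.unit i z hc) with h5 | h5 | h5 | h5 <;>
    rcases unit_list (h.hs.unit j z hc) with h6 | h6 | h6 | h6 <;>
    rw [h5, re_mul'] at h1 <;> rw [h6, re_mul'] at h2 <;>
    simp only [Zsqrtd.re_one, Zsqrtd.im_one, Zsqrtd.re_neg, Zsqrtd.im_neg, one_mul, zero_mul, neg_zero, sub_zero,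
      neg_mul, zero_sub, neg_neg] at h1 h2 <;>
    first
    | (rw [h1, h2]; ring1)
    | (exfalso; apply hne; rw [h1, h2]; done)
    | (exfalso; apply hne; rw [h1, h2]; simp)
  · exfalso
    apply hne
    rw [(h.hk i).inert p hp hpQ h4, (h.hk j).inert p hp hpQ h4]

end Pool.Agent.H92L
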