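import Pool.Agent.H92L.Char
import Pool.Graph.R_seed8.H82R3.EK.FF

/-!
# The traces of Frobenius of the curves with complex multiplication by orders of `ℤ[i]`
-/

set_option autoImplicit false
set_option linter.unusedSectionVars false

open Finset
open H385 (ZI RQ im1 nrm)

namespace Pool.Agent.H92L

open Pool.Agent.Y699
open Pool.Agent.H304R2.EC.A1 (prim prim_mul prim_cancel prim_one prim_norm_odd prim_star eq_one_of_prim
  norm_def' re_mul' im_mul' eq_of_dvd prim_ne_zero)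

/-- the number of the solutions of the equation of `W` modulo `p` -/
def points (W : WeierstrassCurve ℤ) (p : ℕ) : ℕ :=
  ((range p ×ˢ range p).filter (fun t : ℕ × ℕ => (p : ℤ) ∣
    (t.2 : ℤ) ^ 2 + W.a₁ * t.1 * t.2 + W.a₃ * t.2 - ((t.1 : ℤ) ^ 3 + W.a₂ * (t.1 : ℤ) ^ 2 + W.a₄ * t.1 + W.a₆))).card

/-- the trace of Frobenius -/
def trace (W : WeierstrassCurve ℤ) (p : ℕ) : ℤ := (p : ℤ) - points W p

variable {p : ℕ} [hF : Fact p.Prime]

theorem points_eq (W : WeierstrassCurve ℤ) : points W p = Nat.card {t : ZMod p × ZMod p // t.2 ^ 2 +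
    (W.a₁ : ZMod p) * t.1 * t.2 + (W.a₃ : ZMod p) * t.2 = t.1 ^ 3 + (W.a₂ : ZMod p) * t.1 ^ 2 +
    (W.a₄ : ZMod p) * t.1 + (W.a₆ : ZMod p)} := by
  classical
  rw [Nat.card_eq_fintype_card, Fintype.card_subtype]
  unfold points
  refine Finset.card_bij' (fun xy _ => ((xy.1 : ZMod p), (xy.2 : ZMod p)))
    (fun q _ => (q.1.val, q.2.val)) ?_ ?_ ?_ ?_
  · rintro ⟨x, y⟩ h
    simp only [mem_filter, mem_product, mem_range] at h
    simp only [mem_univ, mem_filter, true_and]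
    obtain ⟨_, h⟩ := h
    rw [← ZMod.intCast_zmod_eq_zero_iff_dvd] at h
    push_cast at h
    linear_combination h
  · rintro ⟨x, y⟩ h
    simp only [mem_univ, mem_filter, true_and] at h
    simp only [mem_filter, mem_product, mem_range]
    refine ⟨⟨ZMod.val_lt _, ZMod.val_lt _⟩, ?_⟩
    rw [← ZMod.intCast_zmod_eq_zero_iff_dvd]
    push_cast
    simp only [ZMod.natCast_val, ZMod.cast_id', id_eq]
    linear_combination h
  · rintro ⟨x, y⟩ h
    simp only [mem_filter, mem_product, mem_range] at h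
    simp only [Prod.mk.injEq]
    exact ⟨ZMod.val_cast_of_lt h.1.1, ZMod.val_cast_of_lt h.1.2⟩
  · rintro ⟨x, y⟩ h
    simp

/-- the quadratic character -/
noncomputable abbrev qc (p : ℕ) [Fact p.Prime] : MulChar (ZMod p) ℤ := quadraticChar (ZMod p)

theorem rc (h2 : p ≠ 2) : ringChar (ZMod p) ≠ 2 := by rwa [ZMod.ringChar_zmod_n]

theorem ne_zero_of {n : ℕ} (hn : ¬ p ∣ n) : (n : ZMod p) ≠ 0 := by
  rw [Ne, ZMod.natCast_eq_zero_iff]
  exact hn

theorem small_ne (h2 : p ≠ 2) (h3 : p ≠ 3) : (2 : ZMod p) ≠ 0 ∧ (3 : ZMod p) ≠ 0 := by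
  constructor
  · have := ne_zero_of (p := p) (n := 2) (fun h => h2 ((Nat.prime_dvd_prime_iff_eq hF.out Nat.prime_two).1 h))
    exact_mod_cast this
  · have := ne_zero_of (p := p) (n := 3) (fun h => h3 ((Nat.prime_dvd_prime_iff_eq hF.out Nat.prime_three).1 h))
    exact_mod_cast this

/-- the short equation -/
theorem trace_short (W : WeierstrassCurve ℤ) (h2 : p ≠ 2) (h3 : p ≠ 3) : trace W p =
    - ∑ x : ZMod p, qc p (x ^ 3 - 27 * (W.c₄ : ZMod p) * x - 54 * (W.c₆ : ZMod p)) := by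
  classical
  obtain ⟨k2, k3⟩ := small_ne h2 h3
  set A1 : ZMod p := ((W.a₁ : ℤ) : ZMod p) with hA1
  set A2 : ZMod p := ((W.a₂ : ℤ) : ZMod p) with hA2
  set A3 : ZMod p := ((W.a₃ : ℤ) : ZMod p) with hA3
  set A4 : ZMod p := ((W.a₄ : ℤ) : ZMod p) with hA4
  set A6 : ZMod p := ((W.a₆ : ℤ) : ZMod p) with hA6
  have hc4 : (W.c₄ : ZMod p) = (A1 ^ 2 + 4 * A2) ^ 2 - 24 * (2 * A4 + A1 * A3) := by
    unfold WeierstrassCurve.c₄ WeierstrassCurve.b₂ WeierstrassCurve.b₄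
    push_cast
    rfl
  have hc6 : (W.c₆ : ZMod p) = -(A1 ^ 2 + 4 * A2) ^ 3 + 36 * (A1 ^ 2 + 4 * A2) * (2 * A4 + A1 * A3) -
      216 * (A3 ^ 2 + 4 * A6) := by
    unfold WeierstrassCurve.c₆ WeierstrassCurve.b₂ WeierstrassCurve.b₄ WeierstrassCurve.b₆
    push_cast
    rfl
  have key : ∀ x y : ZMod p, (108 * (2 * y + A1 * x + A3)) ^ 2 - ((36 * x + 3 * (A1 ^ 2 + 4 * A2)) ^ 3 -
      27 * (W.c₄ : ZMod p) * (36 * x + 3 * (A1 ^ 2 + 4 * A2)) - 54 * (W.c₆ : ZMod p)) =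
      46656 * (y ^ 2 + A1 * x * y + A3 * y - (x ^ 3 + A2 * x ^ 2 + A4 * x + A6)) := by
    intro x y
    rw [hc4, hc6]
    ring
  have k36 : (36 : ZMod p) ≠ 0 := by
    have : (36 : ZMod p) = 2 * 2 * 3 * 3 := by norm_num
    rw [this]
    exact mul_ne_zero (mul_ne_zero (mul_ne_zero k2 k2) k3) k3
  have k108 : (108 : ZMod p) ≠ 0 := by
    have : (108 : ZMod p) = 36 * 3 := by norm_num
    rw [this]
    exact mul_ne_zero k36 k3
  have kb : (46656 : ZMod p) ≠ 0 := by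
    have : (46656 : ZMod p) = 36 * 36 * 36 := by norm_num
    rw [this]
    exact mul_ne_zero (mul_ne_zero k36 k36) k36
  have hcard := Pool.Agent.H82R3.EK.card_points (rc h2) (fun x : ZMod p => x ^ 3 - 27 * (W.c₄ : ZMod p) * x -
    54 * (W.c₆ : ZMod p))
  have hpts : (points W p : ℤ) = (Nat.card {x : ZMod p × ZMod p // x.2 ^ 2 = x.1 ^ 3 - 27 * (W.c₄ : ZMod p) * x.1 -
      54 * (W.c₆ : ZMod p)} : ℤ) := by
    rw [points_eq, Nat.cast_inj]
    refine Nat.card_congr ⟨fun t => ⟨(36 * t.1.1 + 3 * (A1 ^ 2 + 4 * A2), 108 * (2 * t.1.2 + A1 * t.1.1 + A3)), ?_⟩,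
      fun t => ⟨((t.1.1 - 3 * (A1 ^ 2 + 4 * A2)) / 36, (t.1.2 / 108 - A1 * ((t.1.1 - 3 * (A1 ^ 2 + 4 * A2)) / 36) - A3) / 2),
        ?_⟩, ?_, ?_⟩
    · have h1 := key t.1.1 t.1.2
      have h2 := t.2
      have h4 : t.1.2 ^ 2 + A1 * t.1.1 * t.1.2 + A3 * t.1.2 - (t.1.1 ^ 3 + A2 * t.1.1 ^ 2 + A4 * t.1.1 + A6) = 0 := by
        linear_combination h2
      rw [h4, mul_zero] at h1
      linear_combination h1
    · have h1 := key ((t.1.1 - 3 * (A1 ^ 2 + 4 * A2)) / 36)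
        ((t.1.2 / 108 - A1 * ((t.1.1 - 3 * (A1 ^ 2 + 4 * A2)) / 36) - A3) / 2)
      have h2 := t.2
      have e1 : 36 * ((t.1.1 - 3 * (A1 ^ 2 + 4 * A2)) / 36) + 3 * (A1 ^ 2 + 4 * A2) = t.1.1 := by
        field_simp
        ring
      have e2 : 108 * (2 * ((t.1.2 / 108 - A1 * ((t.1.1 - 3 * (A1 ^ 2 + 4 * A2)) / 36) - A3) / 2) +
          A1 * ((t.1.1 - 3 * (A1 ^ 2 + 4 * A2)) / 36) + A3) = t.1.2 := by
        field_simp
        ring
      rw [e1, e2, h2, sub_self] at h1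
      have h4 := (mul_eq_zero.1 h1.symm).resolve_left kb
      linear_combination h4
    · rintro ⟨⟨x, y⟩, h⟩
      apply Subtype.ext
      simp only [Prod.mk.injEq]
      constructor
      · field_simp
        ring
      · field_simp
        ring
    · rintro ⟨⟨x, y⟩, h⟩
      apply Subtype.ext
      simp only [Prod.mk.injEq]
      constructor
      · field_simp
        ring
      · field_simp
        ring
  unfold trace
  rw [hpts, hcard, ZMod.card]
  ring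

end Pool.Agent.H92L
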