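import Pool.Agent.H92L.Sums

/-!
# The Hecke characters of the curves over `ℚ` with complex multiplication by orders of `ℤ[i]`
-/

set_option autoImplicit false
set_option linter.unusedSectionVars false

open Finset
open H385 (ZI RQ im1 nrm)

namespace Pool.Agent.H92L

open Pool.Agent.Y699
open Pool.Agent.W164.RC (prime_of_norm)
open Pool.Agent.H304R2.EC.A1 (prim prim_mul prim_cancel prim_one prim_norm_odd prim_star eq_one_of_prim
  norm_def' re_mul' im_mul' eq_of_dvd prim_ne_zero)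

/-- an integral equation with discriminant not zero and `j = 1728` or `287496` -/
def CM (W : WeierstrassCurve ℤ) : Prop :=
  W.Δ ≠ 0 ∧ (W.c₄ ^ 3 = 1728 * W.Δ ∨ W.c₄ ^ 3 = 287496 * W.Δ)

lemma CM.c4 {W : WeierstrassCurve ℤ} (h : CM W) : W.c₄ ≠ 0 := by
  intro h0
  obtain ⟨h1, h2⟩ := h
  rw [h0] at h2
  rcases h2 with h2 | h2 <;> apply h1 <;> omega

lemma dvd_of_sq {A B C : ℤ} (hB : B ≠ 0) (h : 33 * A ^ 2 = B ^ 2 * C) : B ∣ A := by
  have hg : 0 < Int.gcd A B := Int.gcd_pos_of_ne_zero_right A hB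
  obtain ⟨A', B', hc, hA, hB'⟩ := Int.exists_gcd_one hg
  set g : ℤ := (Int.gcd A B : ℤ) with hgd
  have hg0 : g ≠ 0 := by
    rw [hgd]
    exact_mod_cast hg.ne'
  have h1 : 33 * A' ^ 2 = B' ^ 2 * C := by
    have h2 : g ^ 2 * (33 * A' ^ 2) = g ^ 2 * (B' ^ 2 * C) := by
      rw [hA, hB'] at h
      linear_combination h
    exact mul_left_cancel₀ (pow_ne_zero 2 hg0) h2
  have h2 : B' ^ 2 ∣ 33 := by
    have h3 : IsCoprime (B' ^ 2) (A' ^ 2) := (Int.isCoprime_iff_gcd_eq_one.2 hc).symm.pow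
    exact h3.dvd_of_dvd_mul_right ⟨C, h1⟩
  have h3 : B' ^ 2 ≤ 33 := Int.le_of_dvd (by norm_num) h2
  have h4 : B' ≤ 5 := by nlinarith
  have h5 : -5 ≤ B' := by nlinarith
  have h6 : B' = 1 ∨ B' = -1 := by
    interval_cases B' <;> revert h2 <;> decide
  rcases h6 with h6 | h6
  · rw [hB', h6, one_mul]
    exact ⟨A', by rw [mul_comm]; exact hA⟩
  · rw [hB', h6]
    exact ⟨-A', by rw [hA]; ring⟩

/-- the curve `y² = x³ - n x` with the same traces -/
theorem exists_n {W : WeierstrassCurve ℤ} (hW : CM W) : ∃ n : ℤ, n ≠ 0 ∧ n ∣ 27 * W.c₄ ∧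
    ∀ (p : ℕ) [Fact p.Prime], p ≠ 2 → p ≠ 3 → ¬ (p : ℤ) ∣ W.c₄ → trace W p = - SG p n := by
  have hc4 := hW.c4
  obtain ⟨hΔ, hj⟩ := hW
  have hrel := W.c_relation
  rcases hj with hj | hj
  · have hc6 : W.c₆ = 0 := by
      have : W.c₆ ^ 2 = 0 := by linear_combination hj + hrel
      exact pow_eq_zero_iff (two_ne_zero) |>.1 this
    refine ⟨27 * W.c₄, mul_ne_zero (by norm_num) hc4, dvd_rfl, fun p _ h2 h3 _ => ?_⟩
    rw [trace_short W h2 h3]
    unfold SG
    rw [hc6]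
    push_cast
    simp
  · have h1 : 33 * (11 * W.c₆) ^ 2 = (63 * W.c₄) ^ 2 * W.c₄ := by
      linear_combination 24 * hj + 3993 * hrel
    obtain ⟨w, hw⟩ := dvd_of_sq (mul_ne_zero (by norm_num) hc4) h1
    have h4 : W.c₄ = 33 * w ^ 2 := by
      have h5 : (63 * W.c₄) ^ 2 * (33 * w ^ 2) = (63 * W.c₄) ^ 2 * W.c₄ := by
        rw [hw] at h1
        linear_combination h1
      exact (mul_left_cancel₀ (pow_ne_zero 2 (mul_ne_zero (by norm_num) hc4)) h5).symm
    have h6 : W.c₆ = 189 * w ^ 3 := by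
      rw [h4] at hw
      have : 11 * W.c₆ = 11 * (189 * w ^ 3) := by linear_combination hw
      exact mul_left_cancel₀ (by norm_num) this
    have hw0 : w ≠ 0 := by
      rintro rfl
      apply hc4
      rw [h4]
      norm_num
    refine ⟨w ^ 2, pow_ne_zero 2 hw0, ?_, fun p _ h2 h3 hp => ?_⟩
    · rw [h4]
      exact ⟨891, by ring⟩
    · rw [trace_short W h2 h3, h4, h6]
      have hwp : (w : ZMod p) ≠ 0 := by
        intro h0
        apply hp
        rw [ZMod.intCast_zmod_eq_zero_iff_dvd] at h0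
        rw [h4]
        exact (h0.pow (by norm_num)).mul_left 33
      rw [← sum_two h2 h3 hwp]
      push_cast
      rfl

/-- `2 ^ k m` -/
lemma exists_km {n : ℤ} (hn : n ≠ 0) : ∃ (k : ℕ) (m : ℤ), m % 2 = 1 ∧ n = 2 ^ k * m := by
  obtain ⟨k, m, hm, h⟩ := Nat.exists_eq_two_pow_mul_odd (n := n.natAbs) (by omega)
  have hm1 : m % 2 = 1 := Nat.odd_iff.1 hm
  rcases Int.natAbs_eq n with h1 | h1
  · refine ⟨k, m, by omega, ?_⟩
    rw [h1, h]
    push_cast
    rfl
  · refine ⟨k, -m, by omega, ?_⟩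
    rw [h1, h]
    push_cast
    ring

/-- `η(z) z` is the Frobenius endomorphism -/
structure IsH (W : WeierstrassCurve ℤ) (Q : ℕ) (η : ZI →* ZI) : Prop where
  per : ∀ a b : ZI, (Q : ZI) ∣ a - b → η a = η b
  zero : ∀ a : ZI, ¬ IsCoprime a (Q : ZI) → η a = 0
  unit : ∀ a : ZI, IsCoprime a (Q : ZI) → (η a).norm = 1
  conj : ∀ a : ZI, η (star a) = star (η a)
  split : ∀ (p : ℕ) (z : ZI), p.Prime → ¬ p ∣ Q → z.norm = p → trace W p = 2 * (η z * z).re
  inert : ∀ p : ℕ, p.Prime → ¬ p ∣ Q → p % 4 = 3 → trace W p = 0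

theorem exists_hecke {W : WeierstrassCurve ℤ} (hW : CM W) {Q : ℕ} (hQ : 216 * W.c₄ ∣ Q) :
    ∃ η : ZI →* ZI, IsH W Q η := by
  obtain ⟨n, hn0, hn, hS⟩ := exists_n hW
  obtain ⟨k, m, hm, hkm⟩ := exists_km hn0
  have h2Q : 2 ∣ Q := by
    have h1 : (2 : ℤ) ∣ Q := (show (2 : ℤ) ∣ 216 * W.c₄ from ⟨108 * W.c₄, by ring⟩).trans hQ
    exact_mod_cast h1
  have h3Q : 3 ∣ Q := by
    have h1 : (3 : ℤ) ∣ Q := (show (3 : ℤ) ∣ 216 * W.c₄ from ⟨72 * W.c₄, by ring⟩).trans hQ
    exact_mod_cast h1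
  have hnQ : 8 * n ∣ Q := by
    refine (?_ : 8 * n ∣ 216 * W.c₄).trans hQ
    have : 216 * W.c₄ = 8 * (27 * W.c₄) := by ring
    rw [this]
    exact mul_dvd_mul_left 8 hn
  have hmQ : 8 * m ∣ Q := by
    refine (?_ : 8 * m ∣ 8 * n).trans hnQ
    rw [hkm]
    exact mul_dvd_mul_left 8 (dvd_mul_left m _)
  refine ⟨et Q k m h2Q, fun a b h => et_per h2Q k hmQ h, fun a h => et_zero h2Q k m h,
    fun a h => et_norm h2Q k hmQ h, fun a => et_star h2Q k m a, ?_, ?_⟩
  · intro p z hp hpQ hz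
    have hF : Fact p.Prime := ⟨hp⟩
    have hp2 : p ≠ 2 := by rintro rfl; exact hpQ h2Q
    have hp3 : p ≠ 3 := by rintro rfl; exact hpQ h3Q
    have hpc : ¬ (p : ℤ) ∣ W.c₄ := by
      intro h
      apply hpQ
      have h1 : (p : ℤ) ∣ Q := (h.mul_left 216).trans hQ
      exact_mod_cast h1
    have hcop : IsCoprime z (Q : ZI) := by
      have h1 : IsCoprime (p : ℤ) (Q : ℤ) := by
        rw [(Nat.prime_iff_prime_int.1 hp).coprime_iff_not_dvd]
        intro h
        exact hpQ (by exact_mod_cast h)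
      obtain ⟨u, v, huv⟩ := h1
      refine ⟨(u : ZI) * star z, (v : ZI), ?_⟩
      have h2 : star z * z = ((p : ℤ) : ZI) := by
        rw [mul_comm, ← Zsqrtd.norm_eq_mul_conj, hz]
      have h3 := congrArg (Int.cast : ℤ → ZI) huv
      push_cast at h3 h2
      rw [mul_assoc, h2]
      exact h3
    have ho := odd_of_cop h2Q hcop
    have hu := un_spec ho
    set π := un z * z with hπ
    have hπn : π.norm = p := by rw [hπ, Zsqrtd.norm_mul, hu.1, one_mul, hz]
    have hπr : nrm π = p := by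
      have := nrm_cast π
      rw [hπn] at this
      exact_mod_cast this
    have hPP : PP π := ⟨prime_of_norm hp hπr, hu.2⟩
    have hdQ : ¬ π ∣ (Q : ZI) := by
      intro h
      have h1 : z ∣ (Q : ZI) := (Dvd.intro_left (un z) rfl).trans h
      obtain ⟨u, v, huv⟩ := hcop
      have h2 : z ∣ 1 := by
        rw [← huv]
        exact dvd_add (dvd_mul_left z u) (h1.mul_left v)
      have h3 : π ∣ 1 := by
        rw [hπ]
        have h4 : IsUnit (un z * z) := by
          apply IsUnit.mul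
          · exact Zsqrtd.norm_eq_one_iff.1 (by rw [hu.1]; rfl)
          · exact isUnit_of_dvd_one h2
        exact isUnit_iff_dvd_one.1 h4
      exact hPP.pr.not_isUnit (isUnit_of_dvd_one h3)
    have hdn : ¬ π ∣ (n : ZI) := by
      intro h
      apply hdQ
      have h1 := cast_dvd_cast ((dvd_mul_left n 8).trans hnQ)
      rw [Int.cast_natCast] at h1
      exact h.trans h1
    have hdm : ¬ π ∣ (m : ZI) := by
      intro h
      apply hdn
      apply h.trans
      apply cast_dvd_cast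
      rw [hkm]
      exact dvd_mul_left m _
    rw [hS p hp2 hp3 hpc, SG_eq n hPP hπn hdn, et_apply h2Q k m hcop]
    have hq : q4 π (n : ZI) = FF k m π := by
      rw [hkm]
      exact FF_q4 k hm hPP hp hπn hdm
    rw [hq]
    have e : un z * star (FF k m (un z * z)) * z = star (FF k m π) * π := by rw [hπ]; ring
    rw [e]
    ring
  · intro p hp hpQ h3
    have hF : Fact p.Prime := ⟨hp⟩
    have hp2 : p ≠ 2 := by rintro rfl; exact hpQ h2Q
    have hp3 : p ≠ 3 := by rintro rfl; exact hpQ h3Q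
    have hpc : ¬ (p : ℤ) ∣ W.c₄ := by
      intro h
      apply hpQ
      have h1 : (p : ℤ) ∣ Q := (h.mul_left 216).trans hQ
      exact_mod_cast h1
    rw [hS p hp2 hp3 hpc, SG_inert n h3, neg_zero]

end Pool.Agent.H92L
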