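import Pool.Agent.H92L.GenC
import Pool.Agent.H92L.Hecke

/-!
# The number of primes with given traces, and the number of pairs `(a, m)`
-/

set_option autoImplicit false
set_option linter.unusedSectionVars false

open Finset
open H385 (ZI)

namespace Pool.Agent.H92L

open Pool.Agent.H304R2.EC.A1 (norm_def' re_mul' im_mul')

variable {k : ℕ}

/-- the condition on `(a, m)` -/
def GG (η : Fin (k + 1) → (ZI →* ZI)) (e : Fin (k + 1) → ℤ) (P : ZI → Prop) (a m : ℤ) : Prop :=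
  (∀ i, η i ⟨a, m⟩ = (e i : ZI)) ∧ P ⟨a, m⟩

/-- a property of Gaussian integers which depends on the class modulo `Q` and is invariant under conjugation -/
structure PC (Q : ℕ) (P : ZI → Prop) : Prop where
  per : ∀ a b : ZI, (Q : ZI) ∣ a - b → P a → P b
  conj : ∀ a : ZI, P a → P (star a)

/-- the properties used of the characters -/
structure Hs (η : Fin (k + 1) → (ZI →* ZI)) (Q : ℕ) : Prop where
  per : ∀ i, ∀ a b : ZI, (Q : ZI) ∣ a - b → η i a = η i b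
  zero : ∀ i, ∀ a : ZI, ¬ IsCoprime a (Q : ZI) → η i a = 0
  unit : ∀ i, ∀ a : ZI, IsCoprime a (Q : ZI) → (η i a).norm = 1
  conj : ∀ i, ∀ a : ZI, η i (star a) = star (η i a)

lemma cop_down {Q : ℕ} {a m : ℤ} (h : IsCoprime (⟨a, m⟩ : ZI) (Q : ZI)) : IsCoprime (a ^ 2 + m ^ 2) (Q : ℤ) := by
  have h1 := h.mul_left (cop_star h)
  rw [← Zsqrtd.norm_eq_mul_conj, norm_def'] at h1
  obtain ⟨u, v, huv⟩ := h1
  refine ⟨u.re, v.re, ?_⟩
  have h2 := congrArg Zsqrtd.re huv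
  simp only [Zsqrtd.re_add, Zsqrtd.re_mul, Zsqrtd.re_intCast, Zsqrtd.im_intCast, Zsqrtd.re_natCast,
    Zsqrtd.im_natCast, Zsqrtd.re_one] at h2
  linear_combination h2

theorem GG_per {η : Fin (k + 1) → (ZI →* ZI)} {Q : ℕ} (hη : Hs η Q) (hQ : 1 ≤ Q) {e : Fin (k + 1) → ℤ}
    (he : ∀ i, e i = 1 ∨ e i = -1) {P : ZI → Prop} (hP : PC Q P) : Per Q (GG η e P) where
  one := hQ
  congr := by
    rintro a m a' m' ha hm ⟨h1, h2⟩
    have hd : (Q : ZI) ∣ (⟨a, m⟩ : ZI) - ⟨a', m'⟩ := by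
      obtain ⟨u, hu⟩ := ha
      obtain ⟨v, hv⟩ := hm
      refine ⟨⟨u, v⟩, ?_⟩
      apply Zsqrtd.ext
      · simp only [Zsqrtd.re_sub, Zsqrtd.re_mul, Zsqrtd.re_natCast, Zsqrtd.im_natCast]
        linear_combination hu
      · simp only [Zsqrtd.im_sub, Zsqrtd.im_mul, Zsqrtd.re_natCast, Zsqrtd.im_natCast]
        linear_combination hv
    exact ⟨fun i => by rw [← h1 i]; exact (hη.per i _ _ hd).symm, hP.per _ _ hd h2⟩
  neg := by
    rintro a m ⟨h1, h2⟩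
    have h3 : (⟨a, -m⟩ : ZI) = star ⟨a, m⟩ := by
      apply Zsqrtd.ext <;> simp
    refine ⟨fun i => ?_, ?_⟩
    · rw [h3, hη.conj i, h1 i, star_intCast]
    · rw [h3]
      exact hP.conj _ h2
  cop := by
    rintro a m ⟨h1, -⟩
    apply cop_down
    by_contra hc
    have h2 := hη.zero 0 _ hc
    rw [h1 0] at h2
    have h3 : e 0 = 0 := by exact_mod_cast h2
    rcases he 0 with h | h <;> rw [h] at h3 <;> norm_num at h3

open Classical in
/-- the number of the primes -/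
noncomputable def cnt (W : Fin (k + 1) → WeierstrassCurve ℤ) (e : Fin (k + 1) → ℤ) (P : ZI → Prop) (r : ℤ) (x : ℝ) : ℕ :=
  ((Icc 1 ⌊x⌋₊).filter (fun p : ℕ => p.Prime ∧ (∀ i, ¬ (p : ℤ) ∣ (W i).Δ ∧ trace (W i) p = e i * r) ∧
    ∃ z : ZI, z.norm = p ∧ 2 * z.re = r ∧ P z)).card

/-- everything that is assumed about the curves -/
structure Dt (W : Fin (k + 1) → WeierstrassCurve ℤ) (η : Fin (k + 1) → (ZI →* ZI)) (Q : ℕ) : Prop where
  cm : ∀ i, CM (W i)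
  dvd : ∀ i, 216 * (W i).c₄ ∣ Q
  hk : ∀ i, IsH (W i) Q (η i)
  pos : 1 ≤ Q

lemma Dt.hs {W : Fin (k + 1) → WeierstrassCurve ℤ} {η : Fin (k + 1) → (ZI →* ZI)} {Q : ℕ} (h : Dt W η Q) : Hs η Q :=
  ⟨fun i => (h.hk i).per, fun i => (h.hk i).zero, fun i => (h.hk i).unit, fun i => (h.hk i).conj⟩

variable {W : Fin (k + 1) → WeierstrassCurve ℤ} {η : Fin (k + 1) → (ZI →* ZI)} {Q : ℕ}

lemma Dt.two (h : Dt W η Q) : 2 ∣ Q := by
  have h1 : (2 : ℤ) ∣ Q := (show (2 : ℤ) ∣ 216 * (W 0).c₄ from ⟨108 * (W 0).c₄, by ring⟩).trans (h.dvd 0)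
  exact_mod_cast h1

lemma Dt.good (h : Dt W η Q) {p : ℕ} (hp : p.Prime) (hpQ : ¬ p ∣ Q) (i : Fin (k + 1)) : ¬ (p : ℤ) ∣ (W i).Δ := by
  intro hd
  apply hpQ
  have hpz : Prime (p : ℤ) := Nat.prime_iff_prime_int.1 hp
  have h1 : (p : ℤ) ∣ (W i).c₄ ^ 3 := by
    rcases (h.cm i).2 with h2 | h2 <;> rw [h2] <;> exact hd.mul_left _
  have h2 : (p : ℤ) ∣ (W i).c₄ := hpz.dvd_of_dvd_pow h1
  have h3 : (p : ℤ) ∣ Q := (h2.mul_left 216).trans (h.dvd i)
  exact_mod_cast h3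

/-- every split prime is a norm -/
lemma exists_z {p : ℕ} (hp : p.Prime) (h1 : p % 4 = 1) : ∃ z : ZI, z.norm = p := by
  have : Fact p.Prime := ⟨hp⟩
  obtain ⟨a, b, hab⟩ := Nat.Prime.sq_add_sq (p := p) (by omega)
  refine ⟨⟨a, b⟩, ?_⟩
  rw [norm_def']
  simp only
  exact_mod_cast hab

lemma unit_list {u : ZI} (h : u.norm = 1) : u = 1 ∨ u = -1 ∨ u = ⟨0, 1⟩ ∨ u = ⟨0, -1⟩ := by
  rcases Pool.Agent.W164.RC.unit_cases h with h | h | h | h
  · exact Or.inl h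
  · right; right; left
    rw [h]; rfl
  · right; left
    rw [h]; decide
  · right; right; right
    rw [h]; decide


end Pool.Agent.H92L
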