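import Pool.Graph.R_pool_sql_team_seeded_63374d34.N782.GN.LTe

/-!
# Primes `l² + m²` for almost all `l`, with any periodic condition on `(l, m)`

The theorem `Pool.Agent.N782.GN.c_mainx` (project GN) for any condition `G l m` which is periodic modulo a fixed `q`, even in
`m` and implies that `l² + m²` is coprime to `q`.
-/

set_option autoImplicit false

namespace Pool.Agent.H92L

open Finset Filter Topology Pool.Agent.N782.GN
open Pool.Agent.N782.GN.LT (cop_of_norm int_diff)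

/-- a periodic condition -/
structure Per (q : ℕ) (G : ℤ → ℤ → Prop) : Prop where
  one : 1 ≤ q
  congr : ∀ {a m a' m' : ℤ}, (q : ℤ) ∣ a - a' → (q : ℤ) ∣ m - m' → G a m → G a' m'
  neg : ∀ {a m : ℤ}, G a m → G a (-m)
  cop : ∀ {a m : ℤ}, G a m → IsCoprime (a ^ 2 + m ^ 2) (q : ℤ)

variable {q : ℕ} {G : ℤ → ℤ → Prop}

theorem Per.iff (h : Per q G) {a m a' m' : ℤ} (ha : (q : ℤ) ∣ a - a') (hm : (q : ℤ) ∣ m - m') : G a m ↔ G a' m' := by
  refine ⟨h.congr ha hm, h.congr ?_ ?_⟩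
  · rw [← neg_sub]
    exact (dvd_neg).2 ha
  · rw [← neg_sub]
    exact (dvd_neg).2 hm

theorem Per.neg_iff (h : Per q G) {a m : ℤ} : G a (-m) ↔ G a m := by
  refine ⟨fun h1 => ?_, h.neg⟩
  have := h.neg h1
  rwa [neg_neg] at this

open Classical in
/-- the classes modulo `q` -/
noncomputable def cl (q : ℕ) (G : ℤ → ℤ → Prop) (a : ℤ) : Finset ℕ := (range q).filter (fun m : ℕ => G a m)

open Classical in
/-- half of the sum of `Λ(l² + m²)` over `|m| ≤ M` with the condition, `a = σ l` -/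
noncomputable def fD (G : ℤ → ℤ → Prop) (σ : ℤ) (l : ℤ) (M : ℝ) : ℝ :=
  1 / 2 * ∑ m ∈ (Icc ⌈-M⌉ ⌊M⌋).filter (fun m : ℤ => G (σ * l) m), ArithmeticFunction.vonMangoldt (l ^ 2 + m ^ 2).natAbs

/-- the density -/
noncomputable def sD (q : ℕ) (G : ℤ → ℤ → Prop) (σ : ℤ) (l : ℤ) : ℝ :=
  ((cl q G (σ * l)).card : ℝ) / (q : ℝ) * (gq q l * SS l)

/-- the sum over the classes -/
theorem fD_eq (hG : Per q G) (σ l : ℤ) (M : ℝ) :
    fD G σ l M = 1 / 2 * ∑ m0 ∈ cl q G (σ * l), ∑ m ∈ (Icc ⌈-M⌉ ⌊M⌋).filter (fun m => (q : ℤ) ∣ m - m0),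
      ArithmeticFunction.vonMangoldt (l ^ 2 + m ^ 2).natAbs := by
  classical
  unfold fD
  congr 1
  have hq : (0 : ℤ) < (q : ℤ) := by exact_mod_cast hG.one
  rw [sum_filter]
  simp_rw [sum_filter]
  rw [sum_comm]
  refine sum_congr rfl fun m _ => ?_
  rw [← sum_filter]
  set F := ArithmeticFunction.vonMangoldt (l ^ 2 + m ^ 2).natAbs with hF
  have h1 : (m % (q : ℤ)).toNat < q := by
    have h2 := Int.emod_nonneg m hq.ne'
    have h3 := Int.emod_lt_of_pos m hq
    omega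
  have h0 : (((m % (q : ℤ)).toNat : ℕ) : ℤ) = m % (q : ℤ) :=
    Int.toNat_of_nonneg (Int.emod_nonneg m hq.ne')
  have hdv : (q : ℤ) ∣ m - (((m % (q : ℤ)).toNat : ℕ) : ℤ) := by
    rw [h0]
    exact Int.dvd_self_sub_emod
  have h4 : (cl q G (σ * l)).filter (fun m0 : ℕ => (q : ℤ) ∣ m - m0) =
      if G (σ * l) m then {(m % (q : ℤ)).toNat} else ∅ := by
    ext m0
    unfold cl
    rw [mem_filter, mem_filter, mem_range]
    constructor
    · rintro ⟨⟨h5, h6⟩, h7⟩
      have h8 : G (σ * l) m := (hG.iff (by simp) h7).2 h6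
      rw [if_pos h8, mem_singleton]
      have h9 : m % (q : ℤ) = (m0 : ℤ) % (q : ℤ) :=
        Int.emod_eq_emod_iff_emod_sub_eq_zero.2 (Int.emod_eq_zero_of_dvd h7)
      rw [h9, Int.emod_eq_of_lt (by omega) (by exact_mod_cast h5)]
      simp
    · intro h5
      split_ifs at h5 with h6
      · rw [mem_singleton] at h5
        subst h5
        exact ⟨⟨h1, (hG.iff (by simp) hdv).1 h6⟩, hdv⟩
      · simp at h5
  rw [h4]
  split_ifs
  · rw [sum_singleton]
  · rw [sum_empty]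

theorem gq_nonneg (q : ℕ) (l : ℤ) : 0 ≤ gq q l := by
  unfold gq
  refine div_nonneg (by positivity) (prod_nonneg fun p hp => ?_)
  rw [mem_filter] at hp
  have hp1 := Nat.prime_of_mem_primeFactors hp.1
  have h3 : 3 ≤ p := by
    have := hp1.two_le
    have := hp.2.1
    omega
  have h3' : (3 : ℝ) ≤ p := by exact_mod_cast h3
  have h4 : ((ZMod.χ₄ (p : ZMod 4) : ℤ) : ℝ) ≤ 1 := by
    have : (ZMod.χ₄ (p : ZMod 4) : ℤ) ≤ 1 := by
      rw [ZMod.χ₄_nat_eq_if_mod_four]
      split_ifs <;> norm_num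
    exact_mod_cast this
  rw [sub_nonneg, div_le_one (by linarith)]
  linarith

theorem avgD (hG : Per q G) (σ : ℤ) (hσ : σ ^ 2 = 1) : Avg (fun L => Icc 1 ⌊L⌋) (fD G σ) (sD q G σ) where
  mono := fun l y z h => by
    classical
    unfold fD
    refine mul_le_mul_of_nonneg_left ?_ (by norm_num)
    apply sum_le_sum_of_subset_of_nonneg
    · apply filter_subset_filter
      exact Icc_subset_Icc (Int.ceil_le_ceil (by linarith)) (Int.floor_le_floor h)
    · intro m _ _
      exact ArithmeticFunction.vonMangoldt_nonneg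
  s0 := fun L l hl => by
    rw [mem_box] at hl
    have h1 := (c_ssl l (by omega)).2
    unfold sD
    have h2 : 0 ≤ gq q l := gq_nonneg q l
    positivity
  triv := ⟨9, by norm_num, fun L M hM3 hLM l hl => by
    classical
    rw [mem_box] at hl
    have h1 := f1_triv l M hM3 hl.1 (hl.2.trans hLM)
    have hM : 1 ≤ M := by linarith
    have h2 := two_sided hM (fun m => ArithmeticFunction.vonMangoldt (l ^ 2 + m ^ 2).natAbs) (fun m => by
      simp only [neg_sq])
    have h3 := vM_sq (L := M) (l := l) (by rw [mem_box]; exact ⟨hl.1, hl.2.trans hLM⟩)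
    rw [abs_of_nonneg ArithmeticFunction.vonMangoldt_nonneg] at h3
    have hlog : 0 ≤ Real.log M := Real.log_nonneg hM
    unfold fD
    have h4 : ∑ m ∈ (Icc ⌈-M⌉ ⌊M⌋).filter (fun m : ℤ => G (σ * l) m),
        ArithmeticFunction.vonMangoldt (l ^ 2 + m ^ 2).natAbs ≤
        ∑ m ∈ Icc ⌈-M⌉ ⌊M⌋, ArithmeticFunction.vonMangoldt (l ^ 2 + m ^ 2).natAbs :=
      sum_le_sum_of_subset_of_nonneg (filter_subset _ _) fun _ _ _ => ArithmeticFunction.vonMangoldt_nonneg
    have h5 : 2 * Real.log M ≤ 2 * (M * Real.log M) := by nlinarith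
    unfold f1 at h1
    nlinarith⟩
  avg := fun ε A hε => by
    classical
    have hq1 : 1 ≤ q := hG.one
    obtain ⟨C, hC, h⟩ := c_mainx ε A q hε hq1
    have hq : (0 : ℤ) < (q : ℤ) := by exact_mod_cast hq1
    have hqr : (0 : ℝ) < (q : ℝ) := by exact_mod_cast hq1
    refine ⟨C * ((q : ℕ) : ℝ) ^ 2, by positivity, fun M L hM3 h1 h2 => ?_⟩
    have hM1 : 1 < M := by linarith
    have hε6 : ε ≤ 1 / 6 := by
      have h2 : M ^ (2 / 3 + ε) ≤ M ^ (1 - ε) := h1.trans h2
      have h3 := (Real.rpow_le_rpow_left_iff hM1).1 h2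
      linarith
    have hP : Pr ε M L := ⟨hε, hε6, hM3, h1, h2⟩
    have hL := hP.hL
    have hlog := hP.hlog
    have hX : 0 ≤ C * L * M / (Real.log M) ^ A := by positivity
    -- split `l` into classes
    have e1 : ∑ l ∈ Icc 1 ⌊L⌋, |fD G σ l M - M * sD q G σ l| =
        ∑ l0 ∈ range q, ∑ l ∈ (Icc 1 ⌊L⌋).filter (fun l => (q : ℤ) ∣ l - l0), |fD G σ l M - M * sD q G σ l| := by
      simp_rw [sum_filter]
      rw [sum_comm]
      refine sum_congr rfl fun l _ => ?_
      have h0 : (((l % (q : ℤ)).toNat : ℕ) : ℤ) = l % (q : ℤ) := Int.toNat_of_nonneg (Int.emod_nonneg l hq.ne')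
      have h3 := Int.emod_lt_of_pos l hq
      rw [sum_eq_single (l % (q : ℤ)).toNat]
      · rw [if_pos]
        rw [h0]
        exact Int.dvd_self_sub_emod
      · intro l0 hl0 hne
        rw [mem_range] at hl0
        rw [if_neg]
        intro hd
        apply hne
        have h9 : l % (q : ℤ) = (l0 : ℤ) % (q : ℤ) :=
          Int.emod_eq_emod_iff_emod_sub_eq_zero.2 (Int.emod_eq_zero_of_dvd hd)
        rw [h9, Int.emod_eq_of_lt (by omega) (by exact_mod_cast hl0)]
        simp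
      · intro hn
        exfalso
        apply hn
        rw [mem_range]
        omega
    rw [e1]
    have e2 : ∀ l0 ∈ range q, ∑ l ∈ (Icc 1 ⌊L⌋).filter (fun l => (q : ℤ) ∣ l - l0), |fD G σ l M - M * sD q G σ l| ≤
        (q : ℝ) * (C * L * M / (Real.log M) ^ A) := by
      intro l0 _
      have e3 : ∀ l ∈ (Icc 1 ⌊L⌋).filter (fun l => (q : ℤ) ∣ l - l0), |fD G σ l M - M * sD q G σ l| ≤
          ∑ m0 ∈ cl q G (σ * l0), |∑ m ∈ (Icc ⌈-M⌉ ⌊M⌋).filter (fun m => (q : ℤ) ∣ m - m0),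
            ArithmeticFunction.vonMangoldt (l ^ 2 + m ^ 2).natAbs - 2 * M / q * (gq q l * SS l)| := by
        intro l hl
        rw [mem_filter] at hl
        have hcl : cl q G (σ * l) = cl q G (σ * l0) := by
          unfold cl
          apply filter_congr
          intro m _
          apply hG.iff
          · rw [← mul_sub]
            exact Dvd.dvd.mul_left hl.2 σ
          · simp
        have e4 : fD G σ l M - M * sD q G σ l = 1 / 2 * ∑ m0 ∈ cl q G (σ * l0),
            (∑ m ∈ (Icc ⌈-M⌉ ⌊M⌋).filter (fun m => (q : ℤ) ∣ m - m0),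
            ArithmeticFunction.vonMangoldt (l ^ 2 + m ^ 2).natAbs - 2 * M / q * (gq q l * SS l)) := by
          rw [fD_eq hG, sum_sub_distrib, sum_const, nsmul_eq_mul, hcl]
          unfold sD
          rw [hcl]
          ring
        rw [e4, abs_mul, abs_of_pos (by norm_num : (0 : ℝ) < 1 / 2)]
        have e5 := abs_sum_le_sum_abs (fun m0 : ℕ => ∑ m ∈ (Icc ⌈-M⌉ ⌊M⌋).filter (fun m => (q : ℤ) ∣ m - m0),
            ArithmeticFunction.vonMangoldt (l ^ 2 + m ^ 2).natAbs - 2 * M / q * (gq q l * SS l)) (cl q G (σ * l0))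
        have e6 := abs_nonneg (∑ m0 ∈ cl q G (σ * l0),
            (∑ m ∈ (Icc ⌈-M⌉ ⌊M⌋).filter (fun m => (q : ℤ) ∣ m - m0),
            ArithmeticFunction.vonMangoldt (l ^ 2 + m ^ 2).natAbs - 2 * M / q * (gq q l * SS l)))
        linarith
      refine (sum_le_sum e3).trans ?_
      rw [sum_comm]
      have e4 : ∀ m0 ∈ cl q G (σ * l0), ∑ l ∈ (Icc 1 ⌊L⌋).filter (fun l => (q : ℤ) ∣ l - l0),
          |∑ m ∈ (Icc ⌈-M⌉ ⌊M⌋).filter (fun m => (q : ℤ) ∣ m - m0),
            ArithmeticFunction.vonMangoldt (l ^ 2 + m ^ 2).natAbs - 2 * M / q * (gq q l * SS l)| ≤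
          C * L * M / (Real.log M) ^ A := by
        intro m0 hm0
        unfold cl at hm0
        rw [mem_filter] at hm0
        have hc1 := hG.cop hm0.2
        rw [mul_pow, hσ, one_mul] at hc1
        have hc2 : IsCoprime (⟨(l0 : ℤ), (m0 : ℤ)⟩ : ZI) ((q : ℕ) : ZI) := cop_of_norm hc1
        exact h M L l0 m0 hM3 hc2 h1 h2
      refine (sum_le_sum e4).trans ?_
      rw [sum_const, nsmul_eq_mul]
      refine mul_le_mul_of_nonneg_right ?_ hX
      have : (cl q G (σ * l0)).card ≤ q := by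
        unfold cl
        refine (card_filter_le _ _).trans ?_
        rw [card_range]
      exact_mod_cast this
    refine (sum_le_sum e2).trans ?_
    rw [sum_const, nsmul_eq_mul, card_range]
    apply le_of_eq
    ring

open Classical in
/-- the weight -/
noncomputable def cD (G : ℤ → ℤ → Prop) (σ : ℤ) (l : ℕ) (m : ℕ) : ℝ := if G (σ * l) m then 1 else 0

theorem fD_TT (hG : Per q G) (σ : ℤ) (l t : ℕ) (hl : 1 ≤ l) (ht : 1 ≤ t) :
    |fD G σ l t - TT (cD G σ l) l t| ≤ Real.log l := by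
  classical
  have hl1 : (1 : ℝ) ≤ l := by exact_mod_cast hl
  have ht1 : (1 : ℝ) ≤ t := by exact_mod_cast ht
  unfold fD
  rw [sum_filter]
  have h2 := two_sided ht1 (fun m => if G (σ * l) m then
    ArithmeticFunction.vonMangoldt ((l : ℤ) ^ 2 + m ^ 2).natAbs else 0) (fun m => by
      simp only [neg_sq]
      by_cases h : G (σ * l) m
      · rw [if_pos h, if_pos (hG.neg_iff.2 h)]
      · rw [if_neg h, if_neg (fun h' => h (hG.neg_iff.1 h'))])
  beta_reduce at h2
  rw [h2, Int.floor_natCast, sum_int_nat]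
  have h3 : ∑ m ∈ Icc 1 t, (if G (σ * l) (m : ℤ) then
      ArithmeticFunction.vonMangoldt ((l : ℤ) ^ 2 + (m : ℤ) ^ 2).natAbs else 0) = TT (cD G σ l) l t := by
    unfold TT cD
    refine sum_congr rfl fun m _ => ?_
    have : ((l : ℤ) ^ 2 + (m : ℤ) ^ 2).natAbs = l ^ 2 + m ^ 2 := by
      have : ((l : ℤ) ^ 2 + (m : ℤ) ^ 2) = ((l ^ 2 + m ^ 2 : ℕ) : ℤ) := by push_cast; ring
      rw [this, Int.natAbs_natCast]
    rw [this]
    split_ifs <;> simp
  rw [h3]
  have h4 := vM_sq (L := (l : ℝ)) (l := (l : ℤ)) (by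
    rw [mem_box]
    exact ⟨by omega, by simp⟩)
  rw [abs_of_nonneg ArithmeticFunction.vonMangoldt_nonneg] at h4
  have h5 : 0 ≤ Real.log l := Real.log_nonneg hl1
  by_cases hG0 : G (σ * l) 0
  · rw [if_pos hG0, abs_le]
    have h7 : 0 ≤ ArithmeticFunction.vonMangoldt ((l : ℤ) ^ 2 + 0 ^ 2).natAbs := ArithmeticFunction.vonMangoldt_nonneg
    clear h2 h3
    generalize TT (cD G σ l) l t = X at *
    generalize ArithmeticFunction.vonMangoldt ((l : ℤ) ^ 2 + 0 ^ 2).natAbs = Y at *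
    constructor
    · linarith
    · linarith
  · rw [if_neg hG0, abs_le]
    constructor <;> linarith

open Classical in
/-- the good `l` -/
def GoodD (q : ℕ) (G : ℤ → ℤ → Prop) (σ : ℤ) (ε : ℝ) (A : ℕ) (L : ℝ) (l : ℕ) : Prop :=
  sD q G σ l ≤ 19 * Real.log L ∧ ∀ u : ℝ, L ^ (1 + ε) ≤ u → u ≤ L ^ (3 / 2 - ε) →
    |PP (cD G σ l) l ⌊u⌋₊ - sD q G σ l * ∫ t in (2 : ℝ)..u, 1 / (2 * Real.log t)| ≤ u / (Real.log L) ^ A

open Classical in
theorem almost_D (hG : Per q G) (σ : ℤ) (hσ : σ ^ 2 = 1) (ε : ℝ) (A : ℕ) (hε : 0 < ε) (hε4 : ε ≤ 1 / 4) :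
    ∃ L₀ : ℝ, 3 ≤ L₀ ∧ ∀ L : ℝ, L₀ ≤ L →
    (((Icc 1 ⌊L⌋₊).filter (fun l : ℕ => ¬ GoodD q G σ ε A L l)).card : ℝ) ≤ L / (Real.log L) ^ A := by
  have hav := avgD hG σ hσ
  obtain ⟨L₁, h1⟩ := hav.grid (ε / 2) (A + 2) (by positivity)
  obtain ⟨L₂, hL₂, h2⟩ := conv ε A 19 hε (by norm_num)
  obtain ⟨L₃, h3⟩ := eventually_atTop.1 ((ev_log_rpow 1 one_pos (A + 2) 2).and (ev_log_pow 1 2 one_pos 0))
  refine ⟨max (max L₁ L₂) L₃, le_trans hL₂ (le_trans (le_max_right _ _) (le_max_left _ _)), fun L hL => ?_⟩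
  have hLL1 : L₁ ≤ L := (le_trans (le_max_left _ _) (le_max_left _ _)).trans hL
  have hLL2 : L₂ ≤ L := (le_trans (le_max_right _ _) (le_max_left _ _)).trans hL
  have hLL3 : L₃ ≤ L := (le_max_right _ _).trans hL
  have hL3 : 3 ≤ L := hL₂.trans hLL2
  have hL0 : 0 < L := by linarith
  have hL1 : 1 ≤ L := by linarith
  have hlog : 1 ≤ Real.log L := by
    rw [Real.le_log_iff_exp_le hL0]
    have := Real.exp_one_lt_d9
    linarith
  obtain ⟨hq, hq2⟩ := h3 L hLL3
  rw [Real.rpow_one] at hq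
  rw [zero_add, pow_one, one_mul] at hq2
  have key := h1 L hLL1
  have hsub : (((Icc 1 ⌊L⌋₊).filter (fun l : ℕ => ¬ GoodD q G σ ε A L l)).card : ℝ) ≤
      ((((fun L : ℝ => Icc (1 : ℤ) ⌊L⌋) L).filter (fun l => ¬ ∀ u : ℝ, L ^ (1 + ε / 2) ≤ u → u ≤ L ^ (3 / 2 - ε / 2) →
        |fD G σ l u - u * sD q G σ l| ≤ u / (Real.log L) ^ (A + 2))).card : ℝ) := by
    rw [Nat.cast_le]
    apply card_le_card_of_injOn (fun l : ℕ => (l : ℤ))
    · intro l hl
      rw [mem_coe, mem_filter, mem_Icc] at hl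
      obtain ⟨⟨hl1, hlL⟩, hl⟩ := hl
      rw [Nat.le_floor_iff hL0.le] at hlL
      simp only [mem_coe, mem_filter]
      rw [mem_box]
      have hlmem : (l : ℤ) ∈ Icc (1 : ℤ) ⌊L⌋ := by
        rw [mem_box]
        exact ⟨by exact_mod_cast hl1, by exact_mod_cast hlL⟩
      refine ⟨⟨by exact_mod_cast hl1, by exact_mod_cast hlL⟩, ?_⟩
      intro hg
      apply hl
      have hs0 : 0 ≤ sD q G σ l := hav.s0 L l hlmem
      set t0 : ℝ := L ^ (1 + ε / 2) with ht0
      have hLt0 : L ≤ t0 := by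
        calc L = L ^ (1 : ℝ) := (Real.rpow_one L).symm
          _ ≤ _ := Real.rpow_le_rpow_of_exponent_le hL1 (by linarith)
      have ht03 : 3 ≤ t0 := by linarith
      have hK : sD q G σ (l : ℤ) ≤ 19 * Real.log L := by
        have e1 := hg t0 le_rfl (Real.rpow_le_rpow_of_exponent_le hL1 (by linarith))
        have e2 : fD G σ l t0 ≤ 9 * t0 * Real.log t0 := by
          have hlr : (1 : ℤ) ≤ (l : ℤ) := by exact_mod_cast hl1
          have hlt : ((l : ℤ) : ℝ) ≤ t0 := by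
            push_cast
            linarith
          have k1 := f1_triv (l : ℤ) t0 ht03 hlr hlt
          have k2 := two_sided (show 1 ≤ t0 by linarith)
            (fun m => ArithmeticFunction.vonMangoldt ((l : ℤ) ^ 2 + m ^ 2).natAbs) (fun m => by simp only [neg_sq])
          have k3 := vM_sq (L := t0) (l := (l : ℤ)) (by rw [mem_box]; exact ⟨hlr, hlt⟩)
          rw [abs_of_nonneg ArithmeticFunction.vonMangoldt_nonneg] at k3
          have hlog0 : 0 ≤ Real.log t0 := Real.log_nonneg (by linarith)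
          unfold fD
          have k4 : ∑ m ∈ (Icc ⌈-t0⌉ ⌊t0⌋).filter (fun m : ℤ => G (σ * l) m),
              ArithmeticFunction.vonMangoldt ((l : ℤ) ^ 2 + m ^ 2).natAbs ≤
              ∑ m ∈ Icc ⌈-t0⌉ ⌊t0⌋, ArithmeticFunction.vonMangoldt ((l : ℤ) ^ 2 + m ^ 2).natAbs :=
            sum_le_sum_of_subset_of_nonneg (filter_subset _ _) fun _ _ _ => ArithmeticFunction.vonMangoldt_nonneg
          have k5 : 2 * Real.log t0 ≤ 2 * (t0 * Real.log t0) := by nlinarith
          unfold f1 at k1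
          nlinarith
        have e3 : Real.log t0 ≤ 2 * Real.log L := by
          rw [ht0, Real.log_rpow hL0]
          nlinarith
        have e4 : t0 / (Real.log L) ^ (A + 2) ≤ t0 := div_le_self (by linarith) (one_le_pow₀ hlog)
        rw [abs_le] at e1
        have e5 : t0 * sD q G σ (l : ℤ) ≤ t0 * (19 * Real.log L) := by
          have e6 : 9 * t0 * Real.log t0 ≤ 9 * t0 * (2 * Real.log L) := mul_le_mul_of_nonneg_left e3 (by linarith)
          have e7 : t0 ≤ t0 * Real.log L := by nlinarith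
          nlinarith [e1.1]
        exact le_of_mul_le_mul_left e5 (by linarith)
      refine ⟨hK, ?_⟩
      refine h2 L hLL2 l (sD q G σ (l : ℤ)) (cD G σ l) hl1 hlL hs0 hK (fun m => by
        unfold cD
        split_ifs <;> norm_num) (fun t ht1 ht2 => ?_)
      have e1 := hg t ht1 (ht2.trans (Real.rpow_le_rpow_of_exponent_le hL1 (by linarith)))
      have ht3 : L ≤ t := hLt0.trans ht1
      have ht4 : 1 ≤ t := by
        have : (1 : ℝ) ≤ t := hL1.trans ht3
        exact_mod_cast this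
      have e2 := fD_TT hG σ l t hl1 ht4
      have e3 : Real.log l ≤ Real.log L := Real.log_le_log (by exact_mod_cast hl1) hlL
      have e4 := abs_add_le (TT (cD G σ l) l t - fD G σ l t) (fD G σ l t - t * sD q G σ l)
      rw [sub_add_sub_cancel, abs_sub_comm (TT (cD G σ l) l t) (fD G σ l t)] at e4
      set ℓ := Real.log L with hℓ
      have hp0 : 0 < ℓ ^ (A + 1) := by positivity
      have e5 : (t : ℝ) / ℓ ^ (A + 2) ≤ 1 / 2 * (t / ℓ ^ (A + 1)) := by
        rw [pow_succ ℓ (A + 1), ← div_div, div_le_iff₀ (by linarith)]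
        have : 0 ≤ (t : ℝ) / ℓ ^ (A + 1) := by positivity
        nlinarith
      have e6 : ℓ ≤ 1 / 2 * (t / ℓ ^ (A + 1)) := by
        have : 2 * ℓ ^ (A + 2) ≤ t := hq.trans ht3
        rw [mul_div_assoc', le_div_iff₀ hp0]
        have h9 : ℓ * ℓ ^ (A + 1) = ℓ ^ (A + 2) := by ring
        rw [h9]
        linarith
      linarith
    · intro a _ b _ h
      simpa using h
  refine hsub.trans (key.trans ?_)
  apply div_le_div_of_nonneg_left hL0.le (by positivity)
  exact pow_le_pow_right₀ hlog (by omega)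

end Pool.Agent.H92L
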