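import Pool.Agent.H92L.GenB

/-!
# The constant, as a limit of partial products
-/

set_option autoImplicit false

namespace Pool.Agent.H92L

open Finset Filter Topology Pool.Agent.N782.GN

variable {q : ℕ} {G : ℤ → ℤ → Prop}

/-- the partial products over the primes `3 ≤ p ≤ z` which do not divide `n` -/
noncomputable def prd (n : ℤ) (z : ℕ) : ℝ :=
  ∏ p ∈ (Icc 3 z).filter (fun p : ℕ => p.Prime ∧ ¬ (p : ℤ) ∣ n),
    (1 - ((ZMod.χ₄ (p : ZMod 4) : ℤ) : ℝ) / ((p : ℝ) - 1))

/-- the factor at an odd prime is positive -/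
theorem factor_pos {p : ℕ} (hp : p.Prime) (h2 : p ≠ 2) : 0 < 1 - ((ZMod.χ₄ (p : ZMod 4) : ℤ) : ℝ) / ((p : ℝ) - 1) := by
  have h3 : 3 ≤ p := by
    have := hp.two_le
    omega
  have h3' : (3 : ℝ) ≤ p := by exact_mod_cast h3
  have h4 : ((ZMod.χ₄ (p : ZMod 4) : ℤ) : ℝ) ≤ 1 := by
    have : (ZMod.χ₄ (p : ZMod 4) : ℤ) ≤ 1 := by
      rw [ZMod.χ₄_nat_eq_if_mod_four]
      split_ifs <;> norm_num
    exact_mod_cast this
  rw [sub_pos, div_lt_one (by linarith)]
  linarith

/-- the constant -/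
theorem constant (hG : Per q G) {a : ℤ} (ha : a ≠ 0) :
    0 ≤ cst q G a ∧ (0 < cst q G a ↔ 0 < (cl q G a).card) ∧
    Tendsto (fun z => ((cl q G a).card : ℝ) / (Nat.totient q : ℝ) * prd (q * a) z) atTop (𝓝 (cst q G a)) := by
  set l : ℤ := (a.natAbs : ℤ) with hl
  have hl0 : l ≠ 0 := by omega
  obtain ⟨hlim, hpos⟩ := c_ssl l hl0
  have hσ : (if 0 < a then (1 : ℤ) else -1) * l = a := by
    split_ifs with h
    · omega
    · omega
  have hcst : cst q G a = ((cl q G a).card : ℝ) / (q : ℝ) * (gq q l * SS l) := by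
    unfold cst sD
    rw [← hl, hσ]
  set F : Finset ℕ := q.primeFactors.filter (fun p : ℕ => p ≠ 2 ∧ ¬ (p : ℤ) ∣ l) with hF
  set f : ℕ → ℝ := fun p => 1 - ((ZMod.χ₄ (p : ZMod 4) : ℤ) : ℝ) / ((p : ℝ) - 1) with hf
  have hFpos : 0 < ∏ p ∈ F, f p := by
    apply prod_pos
    intro p hp
    rw [hF, mem_filter] at hp
    exact factor_pos (Nat.prime_of_mem_primeFactors hp.1) hp.2.1
  have hq := hG.one
  have h4D : (0 : ℝ) < (q : ℝ) := by exact_mod_cast hq
  have hφ : (0 : ℝ) < (Nat.totient q : ℝ) := by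
    have : 0 < Nat.totient q := Nat.totient_pos.2 (by omega)
    exact_mod_cast this
  have hgq : gq q l = (q : ℝ) / (Nat.totient q : ℝ) / ∏ p ∈ F, f p := rfl
  have hcst2 : cst q G a = ((cl q G a).card : ℝ) / (Nat.totient q : ℝ) * (SS l / ∏ p ∈ F, f p) := by
    rw [hcst, hgq]
    field_simp
  have hK : 0 < SS l / ∏ p ∈ F, f p := div_pos hpos hFpos
  refine ⟨?_, ?_, ?_⟩
  · rw [hcst2]
    positivity
  · rw [hcst2]
    constructor
    · intro h
      by_contra hc
      have h0 : (cl q G a).card = 0 := by omega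
      rw [h0] at h
      simp at h
    · intro h
      have h' : (0 : ℝ) < ((cl q G a).card : ℝ) := by exact_mod_cast h
      positivity
  · rw [hcst2]
    apply Tendsto.const_mul
    have hev : (fun z => pp l z / ∏ p ∈ F, f p) =ᶠ[atTop] prd (q * a) := by
      filter_upwards [eventually_ge_atTop q] with z hz
      rw [div_eq_iff hFpos.ne']
      unfold pp prd
      rw [← prod_union]
      · refine prod_congr ?_ (fun _ _ => rfl)
        ext p
        simp only [hF, mem_union, mem_filter, mem_Icc, Nat.mem_primeFactors]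
        have key : p.Prime → ((p : ℤ) ∣ q * a ↔ p ∣ q ∨ (p : ℤ) ∣ l) := by
          intro hp
          have hpz : Prime (p : ℤ) := Nat.prime_iff_prime_int.1 hp
          rw [hpz.dvd_mul, Int.natCast_dvd_natCast, hl, Int.dvd_natAbs]
        constructor
        · rintro ⟨⟨h3, hz3⟩, hp, hl3⟩
          by_cases hd : p ∣ q
          · right
            exact ⟨⟨hp, hd, by omega⟩, by omega, hl3⟩
          · left
            refine ⟨⟨h3, hz3⟩, hp, ?_⟩
            rw [key hp]
            tauto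
        · rintro (⟨⟨h3, hz3⟩, hp, hd⟩ | ⟨⟨hp, hd, -⟩, hp2, hl3⟩)
          · rw [key hp] at hd
            exact ⟨⟨h3, hz3⟩, hp, fun h => hd (Or.inr h)⟩
          · have h5 := hp.two_le
            have h6 : p ≤ q := Nat.le_of_dvd (by omega) hd
            exact ⟨⟨by omega, by omega⟩, hp, hl3⟩
      · rw [disjoint_left]
        intro p hp1 hp2
        simp only [hF, mem_filter, mem_Icc, Nat.mem_primeFactors] at hp1 hp2
        obtain ⟨-, hp, hd⟩ := hp1
        obtain ⟨⟨-, hd4, -⟩, hp3, -⟩ := hp2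
        apply hd
        exact Dvd.dvd.mul_right (Int.natCast_dvd_natCast.2 hd4) a
    exact Tendsto.congr' hev (hlim.div_const _)

end Pool.Agent.H92L
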