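import Pool.Graph.R_seed8.Y699.Qj

/-!
# The field `ℚ(i)` as a number field with ring of integers `ℤ[i]`, and the Jacobi sums
-/

set_option autoImplicit false

open NumberField

namespace Pool.Agent.H92L

open Pool.Agent.Y699

/-- the field `ℚ(i)` -/
abbrev KK : Type := FractionRing GaussianInt

noncomputable instance : CharZero KK :=
  charZero_of_injective_algebraMap (FaithfulSMul.algebraMap_injective GaussianInt KK)

theorem int_gi (y : GaussianInt) : IsIntegral ℤ y := by
  refine ⟨Polynomial.X ^ 2 - Polynomial.C (2 * y.re) * Polynomial.X + Polynomial.C y.norm, ?_, ?_⟩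
  · monicity!
  · simp only [Polynomial.eval₂_add, Polynomial.eval₂_sub, Polynomial.eval₂_mul, Polynomial.eval₂_pow,
      Polynomial.eval₂_X, Polynomial.eval₂_C]
    apply Zsqrtd.ext
    · simp [Zsqrtd.norm_def, sq, Zsqrtd.re_mul, Zsqrtd.im_mul]
      ring
    · simp [Zsqrtd.norm_def, sq, Zsqrtd.re_mul, Zsqrtd.im_mul]
      ring

instance : Algebra.IsIntegral ℤ GaussianInt := ⟨int_gi⟩

noncomputable instance : FiniteDimensional ℚ KK := by
  classical
  have h : (⊤ : Submodule ℚ KK) = Submodule.span ℚ {1, algebraMap GaussianInt KK ⟨0, 1⟩} := by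
    symm
    rw [eq_top_iff]
    rintro x -
    obtain ⟨a, b, hb, rfl⟩ := IsFractionRing.div_surjective (A := GaussianInt) x
    have hb0 : b ≠ 0 := nonZeroDivisors.ne_zero hb
    have hn0 : ((b.norm : ℤ) : ℚ) ≠ 0 := by
      have : b.norm ≠ 0 := by
        rw [Ne, Zsqrtd.norm_eq_zero_iff (by norm_num)]
        exact hb0
      exact_mod_cast this
    set c := a * star b with hc
    have key : algebraMap GaussianInt KK a / algebraMap GaussianInt KK b =
        ((c.re : ℚ) / b.norm) • (1 : KK) + ((c.im : ℚ) / b.norm) • algebraMap GaussianInt KK ⟨0, 1⟩ := by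
      have hb1 : algebraMap GaussianInt KK b ≠ 0 := by
        rw [Ne, FaithfulSMul.algebraMap_eq_zero_iff]
        exact hb0
      have hnK : ((b.norm : ℤ) : KK) ≠ 0 := by
        have : b.norm ≠ 0 := by exact_mod_cast hn0
        exact_mod_cast this
      rw [Algebra.smul_def, Algebra.smul_def, map_div₀, map_div₀, mul_one, div_eq_iff hb1]
      have e1 : (algebraMap ℚ KK) (b.norm : ℚ) = ((b.norm : ℤ) : KK) := by simp
      have e2 : (algebraMap ℚ KK) (c.re : ℚ) = ((c.re : ℤ) : KK) := by simp
      have e3 : (algebraMap ℚ KK) (c.im : ℚ) = ((c.im : ℤ) : KK) := by simp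
      rw [e1, e2, e3]
      have e4 : ((c.re : ℤ) : KK) + ((c.im : ℤ) : KK) * algebraMap GaussianInt KK ⟨0, 1⟩ = algebraMap GaussianInt KK c := by
        have : c = (c.re : GaussianInt) + (c.im : GaussianInt) * ⟨0, 1⟩ := by
          apply Zsqrtd.ext <;> simp
        conv_rhs => rw [this]
        rw [map_add, map_mul, map_intCast, map_intCast]
      have e5 : ((b.norm : ℤ) : KK) = algebraMap GaussianInt KK b * algebraMap GaussianInt KK (star b) := by
        rw [← map_mul, ← Zsqrtd.norm_eq_mul_conj, map_intCast]
      have e6 : ((c.re : ℤ) : KK) / ((b.norm : ℤ) : KK) + ((c.im : ℤ) : KK) / ((b.norm : ℤ) : KK) * algebraMap GaussianInt KK ⟨0, 1⟩ =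
          algebraMap GaussianInt KK c / ((b.norm : ℤ) : KK) := by
        rw [← e4]
        ring
      rw [e6, div_mul_eq_mul_div, eq_div_iff hnK, e5, hc, map_mul]
      ring
    rw [key]
    apply Submodule.add_mem
    · apply Submodule.smul_mem
      apply Submodule.subset_span
      simp
    · apply Submodule.smul_mem
      apply Submodule.subset_span
      simp
  refine ⟨?_⟩
  rw [h]
  exact Submodule.fg_span (by simp)

instance : NumberField KK where
  to_charZero := inferInstance
  to_finiteDimensional := inferInstance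

instance : IsIntegralClosure GaussianInt ℤ KK where
  algebraMap_injective := FaithfulSMul.algebraMap_injective GaussianInt KK
  isIntegral_iff := by
    intro x
    constructor
    · intro hx
      have h1 : IsIntegral GaussianInt x := hx.tower_top
      exact IsIntegrallyClosed.isIntegral_iff.1 h1
    · rintro ⟨y, rfl⟩
      exact (int_gi y).algebraMap

/-- the isomorphism -/
noncomputable def ee : GaussianInt ≃+* 𝓞 KK := (NumberField.RingOfIntegers.equiv GaussianInt).symm

/-- all Jacobi sums are known -/
theorem jj : JJ := JJ_of ee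

end Pool.Agent.H92L
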