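import Pool.Agent.H92L.JJ

/-!
# The quartic residue symbol of rational integers modulo Gaussian primes of degree one, as a periodic function
-/

set_option autoImplicit false
set_option linter.unusedSectionVars false

open NumberTheorySymbols
open H385 (ZI RQ im1 nrm)

namespace Pool.Agent.H92L

open Pool.Agent.Y699
open Pool.Agent.W164.RC (Ip Ip_spec Ip_exists Ip_one Ip_three dg two2 prim_iff_dvd unit_norm unit_cases)
open Pool.Agent.H304R2.EC.A1 (prim prim_mul prim_cancel prim_one prim_norm_odd prim_star eq_one_of_prim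
  norm_def' re_mul' im_mul' eq_of_dvd prim_ne_zero)

/-- powers of `i` -/
def ip (e : ℤ) : ZI := im1 ^ (e % 4).toNat

lemma ip_congr {a b : ℤ} (h : a % 4 = b % 4) : ip a = ip b := by unfold ip; rw [h]

lemma ip_add (a b : ℤ) : ip (a + b) = ip a * ip b := by
  have h1 : a % 4 = 0 ∨ a % 4 = 1 ∨ a % 4 = 2 ∨ a % 4 = 3 := by omega
  have h2 : b % 4 = 0 ∨ b % 4 = 1 ∨ b % 4 = 2 ∨ b % 4 = 3 := by omega
  unfold ip
  rw [Int.add_emod]
  rcases h1 with h1 | h1 | h1 | h1 <;> rcases h2 with h2 | h2 | h2 | h2 <;> rw [h1, h2] <;> decide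

lemma ip_nat (n : ℕ) : ip n = im1 ^ n := by
  unfold ip
  have h1 : ((n : ℤ) % 4).toNat = n % 4 := by omega
  rw [h1]
  conv_rhs => rw [← Nat.div_add_mod n 4, pow_add, pow_mul, im1_four, one_pow, one_mul]

lemma ip_star (a : ℤ) : star (ip a) = ip (-a) := by
  have h1 : a % 4 = 0 ∨ a % 4 = 1 ∨ a % 4 = 2 ∨ a % 4 = 3 := by omega
  unfold ip
  rcases h1 with h1 | h1 | h1 | h1
  · rw [h1, show (-a) % 4 = 0 by omega]; decide
  · rw [h1, show (-a) % 4 = 3 by omega]; decide
  · rw [h1, show (-a) % 4 = 2 by omega]; decide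
  · rw [h1, show (-a) % 4 = 1 by omega]; decide

lemma ip_norm (a : ℤ) : (ip a).norm = 1 := by
  have h1 : a % 4 = 0 ∨ a % 4 = 1 ∨ a % 4 = 2 ∨ a % 4 = 3 := by omega
  unfold ip
  rcases h1 with h1 | h1 | h1 | h1 <;> rw [h1] <;> decide

/-- the symbol of two at primary elements -/
def Q2 (α : ZI) : ZI := ip (α.re * α.im / 2)

lemma chi8_ip {c : ℕ} (hc : c % 2 = 1) : ((J(2 | c) : ℤ) : ZI) = ip (((c : ℤ) ^ 2 - 1) / 4) := by
  rw [jacobiSym.at_two (Nat.odd_iff.2 hc), ZMod.χ₈_nat_eq_if_mod_eight]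
  have h1 : c % 8 = 1 ∨ c % 8 = 3 ∨ c % 8 = 5 ∨ c % 8 = 7 := by omega
  obtain ⟨k, hk⟩ : ∃ k : ℤ, (c : ℤ) = 8 * k + (c % 8 : ℕ) := ⟨(c : ℤ) / 8, by omega⟩
  rcases h1 with h1 | h1 | h1 | h1
  · have e1 : ((c : ℤ) ^ 2 - 1) / 4 = 4 * (4 * k ^ 2 + k) := by
      rw [hk, h1]
      push_cast
      have : (8 * k + 1) ^ 2 - 1 = 4 * (4 * (4 * k ^ 2 + k)) := by ring
      rw [this]
      omega
    rw [e1, ip_congr (b := 0) (by omega), if_neg (by omega), if_pos (Or.inl h1)]
    decide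
  · have e1 : ((c : ℤ) ^ 2 - 1) / 4 = 4 * (4 * k ^ 2 + 3 * k) + 2 := by
      rw [hk, h1]
      push_cast
      have : (8 * k + 3) ^ 2 - 1 = 4 * (4 * (4 * k ^ 2 + 3 * k) + 2) := by ring
      rw [this]
      omega
    rw [e1, ip_congr (b := 2) (by omega), if_neg (by omega), if_neg (by omega)]
    decide
  · have e1 : ((c : ℤ) ^ 2 - 1) / 4 = 4 * (4 * k ^ 2 + 5 * k + 1) + 2 := by
      rw [hk, h1]
      push_cast
      have : (8 * k + 5) ^ 2 - 1 = 4 * (4 * (4 * k ^ 2 + 5 * k + 1) + 2) := by ring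
      rw [this]
      omega
    rw [e1, ip_congr (b := 2) (by omega), if_neg (by omega), if_neg (by omega)]
    decide
  · have e1 : ((c : ℤ) ^ 2 - 1) / 4 = 4 * (4 * k ^ 2 + 7 * k + 3) := by
      rw [hk, h1]
      push_cast
      have : (8 * k + 7) ^ 2 - 1 = 4 * (4 * (4 * k ^ 2 + 7 * k + 3)) := by ring
      rw [this]
      omega
    rw [e1, ip_congr (b := 0) (by omega), if_neg (by omega), if_pos (Or.inr h1)]
    decide

/-- **the quartic symbol of two** -/
theorem q4_two {π : ZI} (h : PP π) {p : ℕ} (hp : p.Prime) (hn : π.norm = p) : q4 π 2 = Q2 π := by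
  have hF : Fact p.Prime := ⟨hp⟩
  set a := π.re with ha
  set b := π.im with hb
  obtain ⟨hb2, hab⟩ := h.prm
  rw [← hb] at hb2 hab
  rw [← ha] at hab
  have hpa : (p : ℤ) = a ^ 2 + b ^ 2 := by rw [← hn, norm_def']
  have hmod := h.norm_mod
  rw [hn] at hmod
  have hp4 : p % 4 = 1 := by omega
  have hnr : nrm π = p := by
    have := nrm_cast π
    rw [hn] at this
    exact_mod_cast this
  -- the symbol of `a`
  have hcop : ∀ x : ℤ, x ≠ 0 → x ^ 2 < 2 * p → x % 2 = 1 → x.gcd p = 1 := by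
    intro x hx0 hx hx1
    rw [Int.gcd_comm]
    by_contra hc
    have h1 : (p : ℤ) ∣ x := by
      have := (Nat.Prime.coprime_iff_not_dvd hp (n := x.natAbs)).not
      have h2 : ¬ Nat.Coprime p x.natAbs := by
        intro h3
        apply hc
        rw [Int.gcd, Int.natAbs_natCast]
        exact h3
      rw [this, not_not] at h2
      rwa [Int.natCast_dvd]
    obtain ⟨c, hc⟩ := h1
    have hp2 : (2 : ℤ) ≤ p := by exact_mod_cast hp.two_le
    have hc0 : c ≠ 0 := by rintro rfl; apply hx0; rw [hc, mul_zero]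
    have hc1 : 1 ≤ c ^ 2 := by
      have : 0 < c ^ 2 := by positivity
      omega
    rw [hc, mul_pow] at hx
    nlinarith
  have hab1 : a % 2 = 1 := by omega
  have ha0 : a ≠ 0 := by omega
  have hb0 : b ≠ 0 := by
    intro h0
    rw [h0] at hpa
    have h5 : a.natAbs ^ 2 = p := by
      zify
      rw [sq_abs, hpa]
      ring
    rw [← h5] at hp
    exact Nat.Prime.not_prime_pow le_rfl hp
  have hJa : J(a | p) = 1 := jac_one hpa hab1 hp4 (hcop a ha0 (by
    have h1 : 0 < a ^ 2 := by positivity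
    nlinarith [sq_nonneg b]) hab1)
  -- the symbol of `a + b`
  set c : ℕ := (a + b).natAbs with hc
  have hc2 : c % 2 = 1 := by omega
  have hcsq : (c : ℤ) ^ 2 = (a + b) ^ 2 := by rw [hc, Int.natCast_natAbs, sq_abs]
  have habne : a + b ≠ 0 := by omega
  have hlt : (a + b) ^ 2 < 2 * p := by
    have h1 : a ≠ b := by omega
    have h2 : 0 < (a - b) ^ 2 := by
      have : a - b ≠ 0 := sub_ne_zero.2 h1
      positivity
    nlinarith
  have hgab : (a + b).gcd p = 1 := hcop _ habne hlt (by omega)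
  have hJab : J(a + b | p) = J(2 | c) := by
    have h1 : J(a + b | p) = J((c : ℤ) | p) := by
      rcases Int.natAbs_eq (a + b) with h | h
      · rw [hc, ← h]
      · have h2 : a + b = -(c : ℤ) := h
        rw [h2, jacobiSym.neg _ (Nat.odd_iff.2 (by omega)), ZMod.χ₄_nat_one_mod_four hp4, one_mul]
    rw [h1, ← jacobiSym.quadratic_reciprocity_one_mod_four hp4 (Nat.odd_iff.2 hc2)]
    have h3 : J(2 * (p : ℤ) | c) = J((a - b) ^ 2 | c) := by
      apply jacobiSym.mod_left'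
      have h4 : 2 * (p : ℤ) = (a - b) ^ 2 + (c : ℤ) * c := by
        rw [hpa, ← sq, hcsq]
        ring
      rw [h4, Int.add_mul_emod_self_left]
    have h5 : J((a - b) ^ 2 | c) = 1 := by
      apply jacobiSym.sq_one'
      -- `gcd (a - b, c) = 1`
      by_contra hne
      have hg : (a - b).gcd c ≠ 1 := hne
      obtain ⟨r, hr, hrd⟩ := Nat.exists_prime_and_dvd hg
      have hr1 : (r : ℤ) ∣ a - b := (Int.natCast_dvd_natCast.2 hrd).trans (Int.gcd_dvd_left ..)
      have hr2 : (r : ℤ) ∣ c := (Int.natCast_dvd_natCast.2 hrd).trans (Int.gcd_dvd_right ..)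
      have hr2' : (r : ℤ) ∣ a + b := by
        have := Int.natCast_dvd.1 hr2
        rw [Int.natAbs_natCast] at this
        rw [Int.natCast_dvd]
        exact this
      have hr3 : (r : ℤ) ∣ 2 * p := by
        have : 2 * (p : ℤ) = (a - b) * (a - b) + (a + b) * (a + b) := by rw [hpa]; ring
        rw [this]
        exact dvd_add (hr1.mul_right _) (hr2'.mul_right _)
      have hr4 : r ∣ 2 * p := by exact_mod_cast hr3
      have hr5 : r ≠ 2 := by
        rintro rfl
        omega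
      rcases (Nat.Prime.dvd_mul hr).1 hr4 with h6 | h6
      · exact hr5 ((Nat.prime_dvd_prime_iff_eq hr Nat.prime_two).1 h6)
      · have h7 := (Nat.prime_dvd_prime_iff_eq hr hp).1 h6
        subst h7
        have h8 : (r : ℤ).natAbs ∣ (a + b).gcd r := by
          apply Nat.dvd_gcd
          · exact Int.natAbs_dvd_natAbs.2 hr2'
          · simp
        rw [hgab] at h8
        simp at h8
        exact hp.one_lt.ne' h8
    rw [h5, jacobiSym.mul_left] at h3
    have h6 : J(2 | c) = 1 ∨ J(2 | c) = -1 := by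
      have h7 : J(2 | c) ≠ 0 := by
        intro h0
        rw [h0, zero_mul] at h3
        norm_num at h3
      rcases jacobiSym.trichotomy 2 c with h | h | h
      · exact absurd h h7
      · exact Or.inl h
      · exact Or.inr h
    rcases h6 with h6 | h6 <;> rw [h6] at h3 ⊢ <;> linarith
  -- the congruence
  have hdv : π ∣ (((a + b) ^ 2 : ℤ) : ZI) - 2 * im1 * ((a ^ 2 : ℤ) : ZI) := by
    refine ⟨star π - 2 * ((a : ℤ) : ZI) * im1, ?_⟩
    have e1 : π * star π = ((a ^ 2 + b ^ 2 : ℤ) : ZI) := by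
      rw [← Zsqrtd.norm_eq_mul_conj, norm_def']
    have e2 : (((a + b) ^ 2 : ℤ) : ZI) - 2 * im1 * ((a ^ 2 : ℤ) : ZI) - ((a ^ 2 + b ^ 2 : ℤ) : ZI) =
        -π * (2 * ((a : ℤ) : ZI) * im1) := by
      apply Zsqrtd.ext
      · simp only [Zsqrtd.re_sub, Zsqrtd.re_mul, Zsqrtd.im_mul, Zsqrtd.re_neg, Zsqrtd.im_neg, Zsqrtd.re_intCast,
          Zsqrtd.im_intCast, im1, Zsqrtd.re_ofNat, Zsqrtd.im_ofNat, ← ha, ← hb]
        ring
      · simp only [Zsqrtd.im_sub, Zsqrtd.re_mul, Zsqrtd.im_mul, Zsqrtd.re_neg, Zsqrtd.im_neg, Zsqrtd.re_intCast,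
          Zsqrtd.im_intCast, im1, Zsqrtd.re_ofNat, Zsqrtd.im_ofNat, ← ha, ← hb]
        ring
    linear_combination e2 - e1
  have k1 := q4_per h hdv
  rw [Int.cast_pow, Int.cast_pow, q4_pow h, q4_mul h, q4_mul h, q4_pow h, q4_sq h, q4_sq h, qr_int h hn, qr_int h hn,
    jacobiSym.legendreSym.to_jacobiSym, jacobiSym.legendreSym.to_jacobiSym, hJa, hJab, Int.cast_one, mul_one,
    q4_unit h im1_norm, hnr, chi8_ip hc2, ← ip_nat] at k1
  have k2 : ((c : ℤ) ^ 2 - 1) / 4 = ((p / 4 : ℕ) : ℤ) + a * b / 2 := by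
    rw [hcsq]
    obtain ⟨b', hb'⟩ : ∃ b', b = 2 * b' := ⟨b / 2, by omega⟩
    have e1 : (a + b) ^ 2 - 1 = (p - 1) + 4 * (a * b') := by rw [hpa, hb']; ring
    have e2 : a * b / 2 = a * b' := by
      rw [hb']
      have : a * (2 * b') = 2 * (a * b') := by ring
      rw [this]
      omega
    rw [e1, e2]
    omega
  rw [k2, ip_add, mul_comm] at k1
  have k3 : ip ((p / 4 : ℕ) : ℤ) ≠ 0 := by
    intro h0
    have := ip_norm ((p / 4 : ℕ) : ℤ)
    rw [h0] at this
    simp at this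
  exact (mul_right_cancel₀ k3 k1).symm

end Pool.Agent.H92L
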