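import Pool.Agent.H92L.Curve

/-!
# Character sums
-/

set_option autoImplicit false
set_option linter.unusedSectionVars false

open Finset
open H385 (ZI RQ im1 nrm)

namespace Pool.Agent.H92L

open Pool.Agent.Y699
open Pool.Agent.H304R2.EC.A1 (prim prim_mul prim_cancel prim_one prim_norm_odd prim_star eq_one_of_prim
  norm_def' re_mul' im_mul' eq_of_dvd prim_ne_zero)

variable {p : ℕ} [hF : Fact p.Prime]

/-- the character sum of `y² = x³ - n x` -/
noncomputable def SG (p : ℕ) [Fact p.Prime] (n : ℤ) : ℤ := ∑ x : ZMod p, qc p (x ^ 3 - (n : ZMod p) * x)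

theorem qc_sq {a : ZMod p} (ha : a ≠ 0) : qc p (a ^ 2) = 1 := quadraticChar_sq_one' ha

theorem qc_iso {F : Type} [Field F] [Fintype F] [DecidableEq F] (e : ZMod p ≃+* F) (y : ZMod p) :
    quadraticChar F (e y) = qc p y := by
  classical
  rw [quadraticChar_apply, quadraticChar_apply, quadraticCharFun, quadraticCharFun]
  have h1 : e y = 0 ↔ y = 0 := map_eq_zero_iff e e.injective
  have h2 : IsSquare (e y) ↔ IsSquare y := by
    constructor
    · rintro ⟨z, hz⟩
      refine ⟨e.symm z, ?_⟩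
      rw [← map_mul, ← hz, RingEquiv.symm_apply_apply]
    · rintro ⟨z, rfl⟩
      exact ⟨e z, map_mul e z z⟩
  simp only [h1, h2]

/-- **the character sum at a prime of degree one** -/
theorem SG_eq (n : ℤ) {π : ZI} (hπ : PP π) (hn : π.norm = p) (hd : ¬ π ∣ (n : ZI)) :
    SG p n = -2 * (star (q4 π (n : ZI)) * π).re := by
  obtain ⟨F, i1, i2, i3, ρ, h, hJ⟩ := jj π hπ
  have hnr : nrm π = p := by
    have := nrm_cast π
    rw [hn] at this
    exact_mod_cast this
  have hcard : Fintype.card F = p := by rw [h.card, hnr]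
  set e := ZMod.ringEquivOfPrime F hF.out hcard with he
  have ha : ρ (n : ZI) ≠ 0 := by
    rw [Ne, h.ker]
    exact hd
  have h1 := h.sum_twist ha
  have e1 : ∑ x : F, quadraticChar F (x ^ 3 - ρ (n : ZI) * x) = SG p n := by
    unfold SG
    rw [← Equiv.sum_comp e.toEquiv]
    refine Finset.sum_congr rfl fun x _ => ?_
    rw [← qc_iso e]
    congr 1
    rw [map_sub, map_pow, map_mul, map_intCast, map_intCast]
    rfl
  rw [e1, h.chi_map, hJ] at h1
  have h2 := congrArg Zsqrtd.re h1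
  rw [Zsqrtd.re_intCast, Zsqrtd.re_add] at h2
  rw [h2]
  set u := q4 π (n : ZI)
  simp only [star_neg, mul_neg, Zsqrtd.re_neg, Zsqrtd.re_mul, Zsqrtd.re_star, Zsqrtd.im_star]
  ring

/-- the character sum at an inert prime -/
theorem SG_inert (n : ℤ) (h3 : p % 4 = 3) : SG p n = 0 := by
  have h1 : qc p (-1) = -1 := by
    have h2 : ringChar (ZMod p) ≠ 2 := by
      apply rc
      omega
    rw [quadraticChar_neg_one h2, ZMod.card, ZMod.χ₄_nat_three_mod_four h3]
  have h4 : SG p n = - SG p n := by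
    unfold SG
    conv_lhs => rw [← Equiv.sum_comp (Equiv.neg (ZMod p))]
    rw [← Finset.sum_neg_distrib]
    refine Finset.sum_congr rfl fun x _ => ?_
    have e : (Equiv.neg (ZMod p)) x ^ 3 - (n : ZMod p) * (Equiv.neg (ZMod p)) x = -1 * (x ^ 3 - (n : ZMod p) * x) := by
      simp only [Equiv.neg_apply]
      ring
    rw [e, map_mul, h1]
    ring
  linarith

/-- the sum for `(t - 6) (t² - 4)` -/
theorem isog (h2 : p ≠ 2) : ∑ x : ZMod p, qc p (x * (x ^ 2 - 6 * x + 1)) = ∑ u : ZMod p, qc p (u ^ 3 - u) := by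
  classical
  have k2 : (2 : ZMod p) ≠ 0 := by
    have := ne_zero_of (p := p) (n := 2) (fun h => h2 ((Nat.prime_dvd_prime_iff_eq hF.out Nat.prime_two).1 h))
    exact_mod_cast this
  -- the fibres of `x + 1 / x`
  have hcardf : ∀ u : ZMod p, (((univ.filter (fun x : ZMod p => x ≠ 0)).filter (fun x => x + x⁻¹ = u)).card : ℤ) =
      qc p (u ^ 2 - 4) + 1 := by
    intro u
    have h3 := quadraticChar_card_sqrts (rc h2) (u ^ 2 - 4)
    rw [← h3, Nat.cast_inj]
    refine Finset.card_bij' (fun x _ => 2 * x - u) (fun y _ => (y + u) / 2) ?_ ?_ ?_ ?_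
    · intro x hx
      simp only [mem_filter, mem_univ, true_and] at hx
      simp only [Set.mem_toFinset, Set.mem_ofPred_eq]
      obtain ⟨hx0, hx⟩ := hx
      have e1 : x ^ 2 + 1 = u * x := by
        rw [← hx]
        field_simp
      linear_combination 4 * e1
    · intro y hy
      simp only [Set.mem_toFinset, Set.mem_ofPred_eq] at hy
      simp only [mem_filter, mem_univ, true_and]
      have e1 : (y + u) * (u - y) = 4 := by linear_combination -hy
      have hy0 : y + u ≠ 0 := by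
        intro h0
        rw [h0, zero_mul] at e1
        have : (4 : ZMod p) = 2 * 2 := by norm_num
        rw [this] at e1
        exact (mul_ne_zero k2 k2) e1.symm
      refine ⟨div_ne_zero hy0 k2, ?_⟩
      field_simp
      linear_combination -e1
    · intro x _
      field_simp
      ring
    · intro y _
      field_simp
      ring
  have hs1 : ∑ x : ZMod p, qc p (x * (x ^ 2 - 6 * x + 1)) =
      ∑ x ∈ univ.filter (fun x : ZMod p => x ≠ 0), qc p (x + x⁻¹ - 6) := by
    rw [Finset.sum_filter]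
    refine Finset.sum_congr rfl fun x _ => ?_
    by_cases hx : x = 0
    · rw [hx, if_neg (by simp), zero_mul, MulChar.map_zero]
    · rw [if_pos hx]
      have e1 : x * (x ^ 2 - 6 * x + 1) = x ^ 2 * (x + x⁻¹ - 6) := by
        field_simp
        ring
      rw [e1, map_mul, qc_sq hx, one_mul]
  have hs2 : ∑ x ∈ univ.filter (fun x : ZMod p => x ≠ 0), qc p (x + x⁻¹ - 6) =
      ∑ u : ZMod p, (qc p (u ^ 2 - 4) + 1) * qc p (u - 6) := by
    rw [← Finset.sum_fiberwise (univ.filter (fun x : ZMod p => x ≠ 0)) (fun x => x + x⁻¹)]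
    refine Finset.sum_congr rfl fun u _ => ?_
    rw [← hcardf u, ← nsmul_eq_mul, ← Finset.sum_const]
    refine Finset.sum_congr rfl fun x hx => ?_
    rw [(Finset.mem_filter.1 hx).2]
  have hs3 : ∑ u : ZMod p, qc p (u - 6) = 0 := by
    have h4 := quadraticChar_sum_zero (rc (p := p) h2)
    rw [← h4]
    exact Equiv.sum_comp (Equiv.subRight (6 : ZMod p)) (fun u => qc p u)
  have hs4 : ∑ u : ZMod p, (qc p (u ^ 2 - 4) + 1) * qc p (u - 6) = ∑ u : ZMod p, qc p ((u ^ 2 - 4) * (u - 6)) := by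
    have : ∀ u : ZMod p, (qc p (u ^ 2 - 4) + 1) * qc p (u - 6) = qc p ((u ^ 2 - 4) * (u - 6)) + qc p (u - 6) := by
      intro u
      rw [map_mul]
      ring
    simp_rw [this]
    rw [Finset.sum_add_distrib, hs3, add_zero]
  rw [hs1, hs2, hs4]
  -- `u = 4 v + 2`
  have k4 : (4 : ZMod p) ≠ 0 := by
    have : (4 : ZMod p) = 2 * 2 := by norm_num
    rw [this]
    exact mul_ne_zero k2 k2
  rw [← Equiv.sum_comp ((Equiv.mulLeft₀ (4 : ZMod p) k4).trans (Equiv.addRight (2 : ZMod p)))]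
  refine Finset.sum_congr rfl fun v _ => ?_
  have e1 : ((((Equiv.mulLeft₀ (4 : ZMod p) k4).trans (Equiv.addRight (2 : ZMod p))) v) ^ 2 - 4) *
      (((Equiv.mulLeft₀ (4 : ZMod p) k4).trans (Equiv.addRight (2 : ZMod p))) v - 6) = 8 ^ 2 * (v ^ 3 - v) := by
    simp only [Equiv.trans_apply, Equiv.mulLeft₀_apply, Equiv.coe_addRight]
    ring
  have k8 : (8 : ZMod p) ≠ 0 := by
    have : (8 : ZMod p) = 4 * 2 := by norm_num
    rw [this]
    exact mul_ne_zero k4 k2
  rw [e1, map_mul, qc_sq k8, one_mul]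

/-- the sum for the curves with `j = 287496` -/
theorem sum_two (h2 : p ≠ 2) (h3 : p ≠ 3) {w : ℤ} (hw : (w : ZMod p) ≠ 0) :
    ∑ x : ZMod p, qc p (x ^ 3 - 27 * (33 * (w : ZMod p) ^ 2) * x - 54 * (189 * (w : ZMod p) ^ 3)) = SG p (w ^ 2) := by
  obtain ⟨k2, k3⟩ := small_ne h2 h3
  have k9 : (9 : ZMod p) ≠ 0 := by
    have : (9 : ZMod p) = 3 * 3 := by norm_num
    rw [this]
    exact mul_ne_zero k3 k3
  have k27 : (27 : ZMod p) ≠ 0 := by
    have : (27 : ZMod p) = 9 * 3 := by norm_num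
    rw [this]
    exact mul_ne_zero k9 k3
  set W : ZMod p := (w : ZMod p) with hW
  have e1 : SG p (w ^ 2) = qc p W * ∑ u : ZMod p, qc p (u ^ 3 - u) := by
    unfold SG
    rw [← Equiv.sum_comp (Equiv.mulLeft₀ W hw), Finset.mul_sum]
    refine Finset.sum_congr rfl fun u _ => ?_
    have : (Equiv.mulLeft₀ W hw) u ^ 3 - ((w ^ 2 : ℤ) : ZMod p) * (Equiv.mulLeft₀ W hw) u = W ^ 2 * (W * (u ^ 3 - u)) := by
      rw [Equiv.mulLeft₀_apply]
      push_cast
      ring
    rw [this, map_mul, qc_sq hw, one_mul, map_mul]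
  rw [e1, ← isog h2, Finset.mul_sum]
  rw [← Equiv.sum_comp ((Equiv.mulLeft₀ (9 * W) (mul_ne_zero k9 hw)).trans (Equiv.subRight (18 * W)))]
  refine Finset.sum_congr rfl fun s _ => ?_
  have e2 : (((Equiv.mulLeft₀ (9 * W) (mul_ne_zero k9 hw)).trans (Equiv.subRight (18 * W))) s) ^ 3 -
      27 * (33 * W ^ 2) * (((Equiv.mulLeft₀ (9 * W) (mul_ne_zero k9 hw)).trans (Equiv.subRight (18 * W))) s) -
      54 * (189 * W ^ 3) = (27 * W) ^ 2 * (W * (s * (s ^ 2 - 6 * s + 1))) := by
    simp only [Equiv.trans_apply, Equiv.mulLeft₀_apply, Equiv.subRight_apply]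
    ring
  rw [e2, map_mul, qc_sq (mul_ne_zero k27 hw), one_mul, map_mul]

end Pool.Agent.H92L
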